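import Pool.Agent.H172.SqHole.Defs

namespace Pool.Agent.H172.SqHole

open Finset

lemma fillings_mono {n : ℕ} {w w' : PWord n} (h : ∀ t, w t = none ∨ w t = w' t) (i j : ℕ) :
    fillings w' i j ⊆ fillings w i j := by
  intro z hz
  simp only [fillings, mem_filter, mem_univ, true_and] at hz ⊢
  intro t k htk
  rcases h t with h0 | h0
  · left; exact h0
  · rw [h0]; exact hz t k htk

/-- Filling the hole with the complement of a neighbouring letter loses a square. -/
lemma exists_full {n : ℕ} (hn : 2 ≤ n) (w : PWord n) (hw : holeCount w = 1) :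
    ∃ w' : PWord n, holeCount w' = 0 ∧ sqOcc w' + 1 ≤ sqOcc w := by
  classical
  obtain ⟨t0, ht0⟩ := Finset.card_eq_one.mp hw
  have h0 : w t0 = none := by
    have : t0 ∈ Finset.univ.filter fun t => w t = none := by rw [ht0]; simp
    simpa using this
  have h1 : ∀ t, w t = none → t = t0 := by
    intro t ht
    have : t ∈ Finset.univ.filter fun t => w t = none := by simpa using ht
    rw [ht0] at this
    simpa using this
  -- neighbour
  obtain ⟨t1, i0, hi0, hcase⟩ : ∃ t1 : Fin n, ∃ i0 : ℕ, i0 + 2 ≤ n ∧
      ((i0 = (t0 : ℕ) ∧ (t1 : ℕ) = i0 + 1) ∨ (i0 = (t1 : ℕ) ∧ (t0 : ℕ) = i0 + 1)) := by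
    by_cases h : (t0 : ℕ) + 1 < n
    · exact ⟨⟨t0 + 1, h⟩, t0, by omega, Or.inl ⟨rfl, rfl⟩⟩
    · have := t0.2
      exact ⟨⟨t0 - 1, by omega⟩, (t0 : ℕ) - 1, by omega, Or.inr ⟨rfl, by omega⟩⟩
  have hne : t1 ≠ t0 := by
    intro h
    rw [h] at hcase
    omega
  obtain ⟨b, hb⟩ : ∃ b, w t1 = some b := by
    cases hw1 : w t1 with
    | none => exact absurd (h1 _ hw1) hne
    | some b => exact ⟨b, rfl⟩
  refine ⟨Function.update w t0 (some (!b)), ?_, ?_⟩
  · unfold holeCount
    rw [Finset.card_eq_zero, Finset.filter_eq_empty_iff]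
    intro t _ ht
    by_cases h : t = t0
    · subst h; simp at ht
    · rw [Function.update_of_ne h] at ht
      exact h (h1 t ht)
  · have hmono : ∀ i j, fillings (Function.update w t0 (some (!b))) i j ⊆ fillings w i j := by
      intro i j
      apply fillings_mono
      intro t
      by_cases h : t = t0
      · left; rw [h]; exact h0
      · right; rw [Function.update_of_ne h]
    unfold sqOcc
    apply Nat.succ_le_of_lt
    apply Finset.sum_lt_sum
    · intro ij _
      exact Finset.card_le_card (hmono _ _)
    · refine ⟨(i0, 1), ?_, ?_⟩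
      · simp only [mem_filter, mem_product, mem_range, mem_Icc]
        omega
      · apply Finset.card_lt_card
        refine ⟨hmono _ _, ?_⟩
        intro hsub
        have hz : (fun _ => b : Fin 1 → Bool) ∈ fillings w i0 1 := by
          simp only [fillings, mem_filter, mem_univ, true_and]
          intro t k htk
          have hk : (k : ℕ) = 0 := by omega
          rw [hk] at htk
          have : t = t0 ∨ t = t1 := by
            rcases hcase with ⟨ha, hb'⟩ | ⟨ha, hb'⟩ <;> rcases htk with h | h
            · left; apply Fin.ext; omega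
            · right; apply Fin.ext; omega
            · right; apply Fin.ext; omega
            · left; apply Fin.ext; omega
          rcases this with h | h
          · left; rw [h]; exact h0
          · right; rw [h]; exact hb
        have hz2 := hsub hz
        simp only [fillings, mem_filter, mem_univ, true_and] at hz2
        have := hz2 t0 0 (by
          rcases hcase with ⟨ha, hb'⟩ | ⟨ha, hb'⟩
          · left; simp; omega
          · right; simp; omega)
        simp at this

lemma gamma_one_ge {n : ℕ} (hn : 2 ≤ n) : gamma 0 n + 1 ≤ gamma 1 n := by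
  classical
  have hne : {m | ∃ w : PWord n, holeCount w = 1 ∧ sqOcc w = m}.Nonempty := by
    refine ⟨_, fun t => if (t : ℕ) = 0 then none else some true, ?_, rfl⟩
    unfold holeCount
    rw [Finset.card_eq_one]
    refine ⟨⟨0, by omega⟩, ?_⟩
    ext t
    simp only [mem_filter, mem_univ, true_and, mem_singleton]
    constructor
    · intro h
      by_contra h2
      have : (t : ℕ) ≠ 0 := fun h3 => h2 (Fin.ext h3)
      simp [this] at h
    · intro h; subst h; simp
  obtain ⟨w, hw, hs⟩ := Nat.sInf_mem hne
  obtain ⟨w', hw', hs'⟩ := exists_full hn w hw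
  have h1 : gamma 0 n ≤ sqOcc w' := Nat.sInf_le ⟨w', hw', rfl⟩
  have h2 : sqOcc w = gamma 1 n := hs
  omega

/-- The square occurrences of a full word given by letters `a`. -/
def SQ (a : ℕ → Bool) (n : ℕ) : Finset (ℕ × ℕ) :=
  (Finset.range (n + 1) ×ˢ Finset.Icc 1 n).filter
    (fun ij => ij.1 + 2 * ij.2 ≤ n ∧ ∀ k < ij.2, a (ij.1 + k) = a (ij.1 + ij.2 + k))

lemma SQ_card_le {n : ℕ} (w : PWord n) (a : ℕ → Bool) (h : ∀ t : Fin n, w t = some (a t)) :
    (SQ a n).card ≤ sqOcc w := by
  classical
  unfold SQ sqOcc
  rw [← Finset.filter_filter, Finset.card_filter]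
  apply Finset.sum_le_sum
  rintro ⟨i, j⟩ hij
  simp only [mem_filter, mem_product, mem_range, mem_Icc] at hij
  split_ifs with hsq
  · apply Nat.succ_le_of_lt
    rw [Finset.card_pos]
    refine ⟨fun k => a (i + k), ?_⟩
    simp only [fillings, mem_filter, mem_univ, true_and]
    intro t k htk
    right
    rw [h]
    rcases htk with h1 | h1
    · rw [h1]
    · rw [h1]; simp only [Option.some.injEq]; exact (hsq k k.2).symm
  · exact Nat.zero_le _

/-- The square test at `(i, p)` for the word with letters `a` and a hole at position `n - 1`. -/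
def HSq (a : ℕ → Bool) (n i p : ℕ) : Prop :=
  i + 2 * p ≤ n ∧ ∀ k < p, i + p + k + 1 ≠ n → a (i + k) = a (i + p + k)

instance (a : ℕ → Bool) (n p : ℕ) : DecidablePred (fun i => HSq a n i p) := by
  intro i; unfold HSq; infer_instance

/-- The word with letters `a` and a hole at the last position. -/
def holeWord (a : ℕ → Bool) (n : ℕ) : PWord n :=
  fun t => if (t : ℕ) + 1 = n then none else some (a t)

lemma holeCount_holeWord (a : ℕ → Bool) {n : ℕ} (hn : 1 ≤ n) : holeCount (holeWord a n) = 1 := by
  unfold holeCount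
  rw [Finset.card_eq_one]
  refine ⟨⟨n - 1, by omega⟩, ?_⟩
  ext t
  simp only [mem_filter, mem_univ, true_and, mem_singleton, holeWord]
  constructor
  · intro h
    by_contra h2
    have : (t : ℕ) + 1 ≠ n := fun h3 => h2 (Fin.ext (by simp; omega))
    simp [this] at h
  · intro h; subst h; simp; omega

lemma fillings_holeWord_le (a : ℕ → Bool) {n i p : ℕ} (hp : 1 ≤ p) (hip : i + 2 * p ≤ n) :
    (fillings (holeWord a n) i p).card ≤ if HSq a n i p then 1 else 0 := by
  classical
  have key : ∀ z ∈ fillings (holeWord a n) i p, z = (fun k : Fin p => a (i + k)) ∧ HSq a n i p := by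
    intro z hz
    simp only [fillings, mem_filter, mem_univ, true_and] at hz
    have hzk : ∀ k : Fin p, z k = a (i + k) := by
      intro k
      have hk := k.2
      have := hz ⟨i + k, by omega⟩ k (Or.inl rfl)
      simp only [holeWord] at this
      rw [if_neg (by omega)] at this
      rcases this with h | h
      · simp at h
      · simpa using h.symm
    refine ⟨funext hzk, hip, ?_⟩
    intro k hk hne
    have := hz ⟨i + p + k, by omega⟩ ⟨k, hk⟩ (Or.inr rfl)
    simp only [holeWord] at this
    rw [if_neg (by omega)] at this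
    rw [hzk] at this
    rcases this with h | h
    · simp at h
    · simpa using h.symm
  split_ifs with hsq
  · rw [Finset.card_le_one]
    intro x hx y hy
    rw [(key x hx).1, (key y hy).1]
  · rw [Nat.le_zero, Finset.card_eq_zero, Finset.eq_empty_iff_forall_notMem]
    intro z hz
    exact hsq (key z hz).2

lemma sqOcc_holeWord_le (a : ℕ → Bool) (n : ℕ) :
    sqOcc (holeWord a n) ≤
      ∑ p ∈ Finset.Icc 1 n, ((Finset.range (n + 1)).filter (fun i => HSq a n i p)).card := by
  classical
  have h1 : sqOcc (holeWord a n) ≤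
      ∑ ij ∈ (Finset.range (n + 1) ×ˢ Finset.Icc 1 n), if HSq a n ij.1 ij.2 then 1 else 0 := by
    unfold sqOcc
    rw [Finset.sum_filter]
    apply Finset.sum_le_sum
    rintro ⟨i, p⟩ hip
    simp only [mem_product, mem_range, mem_Icc] at hip
    split_ifs with h2 h3 h3
    · have := fillings_holeWord_le a (n := n) (i := i) (p := p) (by omega) h2
      rwa [if_pos h3] at this
    · have := fillings_holeWord_le a (n := n) (i := i) (p := p) (by omega) h2
      rwa [if_neg h3] at this
    · exact Nat.zero_le _
    · exact Nat.le_refl _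
  refine h1.trans (le_of_eq ?_)
  rw [Finset.sum_product_right]
  apply Finset.sum_congr rfl
  intro p _
  rw [Finset.card_filter]

lemma gamma_one_le {n : ℕ} (hn : 1 ≤ n) (a : ℕ → Bool) (m : ℕ)
    (h : ∑ p ∈ Finset.Icc 1 n, ((Finset.range (n + 1)).filter (fun i => HSq a n i p)).card ≤ m) :
    gamma 1 n ≤ m :=
  le_trans (Nat.sInf_le ⟨holeWord a n, holeCount_holeWord a hn, rfl⟩)
    ((sqOcc_holeWord_le a n).trans h)

/-- A lower bound on the squares in all full words gives a lower bound on `γ_0`. -/
lemma le_gamma_zero {n m : ℕ} (h : ∀ a : ℕ → Bool, m ≤ (SQ a n).card) : m ≤ gamma 0 n := by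
  classical
  have hne : {m | ∃ w : PWord n, holeCount w = 0 ∧ sqOcc w = m}.Nonempty := by
    refine ⟨_, fun _ => some true, ?_, rfl⟩
    unfold holeCount
    simp
  obtain ⟨w, hw, hs⟩ := Nat.sInf_mem hne
  have hs' : sqOcc w = gamma 0 n := hs
  rw [← hs']
  have hw' : ∀ t : Fin n, w t = some ((fun k : ℕ => if hk : k < n then (w ⟨k, hk⟩).getD true
      else true) t) := by
    intro t
    unfold holeCount at hw
    rw [Finset.card_eq_zero, Finset.filter_eq_empty_iff] at hw
    have := hw (Finset.mem_univ t)
    cases hwt : w t with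
    | none => exact absurd hwt this
    | some b => simp [hwt]
  exact (h _).trans (SQ_card_le w (fun k : ℕ => if hk : k < n then (w ⟨k, hk⟩).getD true
      else true) hw')

end Pool.Agent.H172.SqHole
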