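import Pool.Agent.H172.SqHole.AutoCheck
import Pool.Agent.H172.SqHole.Basic

namespace Pool.Agent.H172.SqHole

open Finset

def code (a : ℕ → Bool) : ℕ → ℕ
  | 0 => 0
  | k + 1 => 2 * code a k + (a k).toNat

def qs (a : ℕ → Bool) : ℕ → ℕ
  | 0 => 0
  | k + 1 => nx (qs a k) (a k)

def Cs (a : ℕ → Bool) : ℕ → ℕ
  | 0 => 0
  | k + 1 => Cs a k + cost (qs a (k + 1))

structure NodeSpec (i : ℕ) : Prop where
  hcost : cost i = costOf (dep i) (st i)
  hF0 : FF i 0 ≤ 535
  hF1 : FF i 1 ≤ 552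
  hU0 : 71 ≤ UU i 0

structure EdgeSpec (i : ℕ) (x : Bool) : Prop where
  hlt : nx i x < 2007
  hdep : dep (nx i x) ≤ dep i + 1
  hst : (2 * st i + x.toNat) % 2 ^ dep (nx i x) = st (nx i x)
  hF0 : FF i 0 + 103 ≤ FF (nx i x) ((1 + cost (nx i x)) % 2) + 187 * cost (nx i x)
  hF1 : FF i 1 + 103 ≤ FF (nx i x) (cost (nx i x) % 2) + 187 * cost (nx i x)
  hU0 : UU (nx i x) 0 + 103 ≤ UU i ((1 + cost (nx i x)) % 2) + 187 * cost (nx i x)
  hU1 : UU (nx i x) 1 + 103 ≤ UU i (cost (nx i x) % 2) + 187 * cost (nx i x)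

lemma edge_spec_of {i : ℕ} {x : Bool} (h : edgeOk i x = true) : EdgeSpec i x := by
  unfold edgeOk at h
  simp only [Bool.and_eq_true, Nat.ble_eq] at h
  obtain ⟨h1, h2, h3, h4, h5, h6, h7⟩ := h
  exact ⟨by omega, h2, Nat.eq_of_beq_eq_true h3, h4, h5, h6, h7⟩

lemma node_spec {i : ℕ} (hi : i < 2007) : NodeSpec i := by
  have h := node_ok i hi
  unfold nodeOk at h
  simp only [Bool.and_eq_true, Nat.ble_eq] at h
  obtain ⟨h1, h2, h3, h4, _, _⟩ := h
  exact ⟨Nat.eq_of_beq_eq_true h1, h2, h3, h4⟩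

lemma edge_spec {i : ℕ} (hi : i < 2007) (x : Bool) : EdgeSpec i x := by
  have h := node_ok i hi
  unfold nodeOk at h
  simp only [Bool.and_eq_true] at h
  obtain ⟨_, _, _, _, h5, h6⟩ := h
  cases x
  · exact edge_spec_of h5
  · exact edge_spec_of h6

lemma FF_step {i : ℕ} (hi : i < 2007) (x : Bool) (b : ℕ) (hb : b < 2) :
    FF i b + 103 ≤ FF (nx i x) ((b + 1 + cost (nx i x)) % 2) + 187 * cost (nx i x) := by
  have h := edge_spec hi x
  interval_cases b
  · have := h.hF0; rwa [Nat.zero_add]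
  · have h1 := h.hF1
    have e : (1 + 1 + cost (nx i x)) % 2 = cost (nx i x) % 2 := by omega
    rwa [e]

lemma UU_step {i : ℕ} (hi : i < 2007) (x : Bool) (b : ℕ) (hb : b < 2) :
    UU (nx i x) b + 103 ≤ UU i ((b + 1 + cost (nx i x)) % 2) + 187 * cost (nx i x) := by
  have h := edge_spec hi x
  interval_cases b
  · have := h.hU0; rwa [Nat.zero_add]
  · have h1 := h.hU1
    have e : (1 + 1 + cost (nx i x)) % 2 = cost (nx i x) % 2 := by omega
    rwa [e]

lemma qs_lt (a : ℕ → Bool) : ∀ k, qs a k < 2007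
  | 0 => by norm_num [qs]
  | k + 1 => (edge_spec (qs_lt a k) (a k)).hlt

lemma two_mul_add_mod (B D x : ℕ) (hx : x < 2) :
    (2 * B + x) % 2 ^ (D + 1) = 2 * (B % 2 ^ D) + x := by
  have h1 : 2 * B + x = 2 * (B % 2 ^ D) + x + 2 ^ (D + 1) * (B / 2 ^ D) := by
    have := Nat.div_add_mod B (2 ^ D)
    have e : 2 ^ (D + 1) * (B / 2 ^ D) = 2 * (2 ^ D * (B / 2 ^ D)) := by ring
    omega
  rw [h1, Nat.add_mul_mod_self_left, Nat.mod_eq_of_lt]
  have := Nat.mod_lt B (Nat.two_pow_pos D)
  rw [pow_succ]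
  omega

lemma inv (a : ℕ → Bool) : ∀ k, dep (qs a k) ≤ k ∧ code a k % 2 ^ dep (qs a k) = st (qs a k)
  | 0 => by
    refine ⟨?_, ?_⟩
    · show dep 0 ≤ 0
      rw [root_dep]
    · show code a 0 % 2 ^ dep 0 = st 0
      rw [root_dep, root_st]; rfl
  | k + 1 => by
    obtain ⟨h1, h2⟩ := inv a k
    have he := edge_spec (qs_lt a k) (a k)
    have hd : dep (qs a (k + 1)) ≤ dep (qs a k) + 1 := he.hdep
    refine ⟨by omega, ?_⟩
    have hst : (2 * st (qs a k) + (a k).toNat) % 2 ^ dep (qs a (k + 1)) = st (qs a (k + 1)) :=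
      he.hst
    rw [← hst, ← h2]
    show (2 * code a k + (a k).toNat) % 2 ^ dep (qs a (k + 1)) = _
    have hdvd : 2 ^ dep (qs a (k + 1)) ∣ 2 ^ (dep (qs a k) + 1) := pow_dvd_pow 2 hd
    rw [← Nat.mod_mod_of_dvd (2 * code a k + (a k).toNat) hdvd,
      two_mul_add_mod _ _ _ (Bool.toNat_lt (a k))]

lemma Fbound (a : ℕ → Bool) : ∀ k,
    103 * k + 65 ≤ FF (qs a k) ((k + Cs a k) % 2) + 187 * Cs a k
  | 0 => by
    show 103 * 0 + 65 ≤ FF 0 0 + 187 * 0
    rw [root_F]
  | k + 1 => by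
    have ih := Fbound a k
    have h := FF_step (qs_lt a k) (a k) ((k + Cs a k) % 2) (Nat.mod_lt _ (by norm_num))
    have e1 : Cs a (k + 1) = Cs a k + cost (nx (qs a k) (a k)) := rfl
    have e2 : ((k + Cs a k) % 2 + 1 + cost (nx (qs a k) (a k))) % 2
        = (k + 1 + Cs a (k + 1)) % 2 := by rw [e1]; omega
    rw [e2] at h
    have e3 : qs a (k + 1) = nx (qs a k) (a k) := rfl
    rw [e3, e1]
    rw [e1] at h
    omega

/-- The counted squares satisfy the bound. -/
lemma Cs_bound (a : ℕ → Bool) (n : ℕ) :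
    103 * n ≤ 187 * Cs a n + 487 ∧ ((n + Cs a n) % 2 = 0 → 103 * n ≤ 187 * Cs a n + 470) := by
  have h := Fbound a n
  have hs := node_spec (qs_lt a n)
  rcases Nat.mod_two_eq_zero_or_one (n + Cs a n) with h0 | h0
  · rw [h0] at h
    have := hs.hF0
    exact ⟨by omega, fun _ => by omega⟩
  · rw [h0] at h
    have := hs.hF1
    exact ⟨by omega, fun h2 => by omega⟩

lemma Ubound (a : ℕ → Bool) (n : ℕ) : ∀ r k, k + r = n →
    103 * r + 71 + 187 * Cs a k ≤ UU (qs a k) ((r + Cs a n + Cs a k) % 2) + 187 * Cs a n := by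
  intro r
  induction r with
  | zero =>
    intro k hk
    have hk' : k = n := by omega
    subst hk'
    have hs := (node_spec (qs_lt a k)).hU0
    have e : (0 + Cs a k + Cs a k) % 2 = 0 := by omega
    rw [e]; omega
  | succ r ih =>
    intro k hk
    have ih' := ih (k + 1) (by omega)
    have h := UU_step (qs_lt a k) (a k) ((r + Cs a n + Cs a (k + 1)) % 2)
      (Nat.mod_lt _ (by norm_num))
    have e1 : Cs a (k + 1) = Cs a k + cost (nx (qs a k) (a k)) := rfl
    have e3 : qs a (k + 1) = nx (qs a k) (a k) := rfl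
    have e2 : ((r + Cs a n + Cs a (k + 1)) % 2 + 1 + cost (nx (qs a k) (a k))) % 2
        = (r + 1 + Cs a n + Cs a k) % 2 := by rw [e1]; omega
    rw [e2] at h
    rw [e3] at ih'
    rw [e1] at ih' h
    omega

lemma mem_lay (a : ℕ → Bool) (n s0 : ℕ) (hC : Cs a n = s0) : ∀ k, k ≤ n →
    (qs a k, Cs a k) ∈ lay n s0 k := by
  have hmono : ∀ r k, k + r = n → Cs a k ≤ s0 := by
    intro r
    induction r with
    | zero => intro k hk; have : k = n := by omega
              subst this; omega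
    | succ r ih =>
      intro k hk
      have := ih (k + 1) (by omega)
      have e1 : Cs a (k + 1) = Cs a k + cost (qs a (k + 1)) := rfl
      omega
  intro k
  induction k with
  | zero => intro _; simp [lay, qs, Cs]
  | succ k ih =>
    intro hk
    rw [lay, List.mem_filter]
    constructor
    · rw [List.mem_flatMap]
      refine ⟨_, ih (by omega), ?_⟩
      simp only [kids, List.mem_cons, List.not_mem_nil, or_false]
      have e1 : Cs a (k + 1) = Cs a k + cost (nx (qs a k) (a k)) := rfl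
      have e3 : qs a (k + 1) = nx (qs a k) (a k) := rfl
      cases hak : a k
      · left; rw [e1, e3, hak]
      · right; rw [e1, e3, hak]
    · have hm := hmono (n - (k + 1)) (k + 1) (by omega)
      have hu := Ubound a n (n - (k + 1)) (k + 1) (by omega)
      rw [hC] at hu
      simp only [pok, Bool.and_eq_true, Nat.ble_eq]
      exact ⟨hm, hu⟩

lemma Cs_ne_of_layEmpty (a : ℕ → Bool) (n s0 : ℕ) (h : layEmpty n s0 = true) : Cs a n ≠ s0 := by
  intro hC
  have hm := mem_lay a n s0 hC n le_rfl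
  unfold layEmpty at h
  rw [List.all_eq_true] at h
  have := h _ hm
  simp [hC] at this

lemma testBit_code (a : ℕ → Bool) : ∀ n m, m < n → (code a n).testBit m = a (n - 1 - m) := by
  intro n
  induction n with
  | zero => intro m hm; omega
  | succ n ih =>
    intro m hm
    rw [code]
    cases m with
    | zero =>
      rw [Nat.testBit_zero]
      have : (2 * code a n + (a n).toNat) % 2 = (a n).toNat := by
        cases a n <;> simp
      rw [this]
      simp
    | succ m =>
      rw [Nat.testBit_succ]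
      have : (2 * code a n + (a n).toNat) / 2 = code a n := by
        cases a n
        · simp
        · simp; omega
      rw [this, ih m (by omega)]
      congr 1
      omega

lemma cost_sound (a : ℕ → Bool) (N p : ℕ)
    (h2p : 2 * p ≤ dep (qs a N)) (hst : st (qs a N) % 2 ^ p = st (qs a N) / 2 ^ p % 2 ^ p) :
    2 * p ≤ N ∧ ∀ k < p, a (N - 2 * p + k) = a (N - 2 * p + p + k) := by
  obtain ⟨h1, h2⟩ := inv a N
  refine ⟨by omega, ?_⟩
  have hbit : ∀ m, m < 2 * p → (st (qs a N)).testBit m = a (N - 1 - m) := by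
    intro m hm
    rw [← h2, Nat.testBit_mod_two_pow, testBit_code a N m (by omega)]
    simp; omega
  have heq : ∀ m, m < p → (st (qs a N)).testBit m = (st (qs a N)).testBit (m + p) := by
    intro m hm
    have h3 : (st (qs a N) % 2 ^ p).testBit m = (st (qs a N)).testBit m := by
      rw [Nat.testBit_mod_two_pow]; simp [hm]
    have h4 : (st (qs a N) / 2 ^ p % 2 ^ p).testBit m = (st (qs a N)).testBit (m + p) := by
      rw [Nat.testBit_mod_two_pow, Nat.testBit_div_two_pow]; simp [hm]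
    rw [← h3, hst, h4]
  intro k hk
  have h5 := heq (p - 1 - k) (by omega)
  rw [hbit _ (by omega), hbit _ (by omega)] at h5
  have e1 : N - 1 - (p - 1 - k) = N - 2 * p + p + k := by omega
  have e2 : N - 1 - (p - 1 - k + p) = N - 2 * p + k := by omega
  rw [e1, e2] at h5
  exact h5.symm

lemma PL_nodup : PL.Nodup := by decide
lemma PL_pos : ∀ p ∈ PL, 1 ≤ p := by decide

lemma SQ_succ (a : ℕ → Bool) (n : ℕ) :
    (SQ a n).card + cost (qs a (n + 1)) ≤ (SQ a (n + 1)).card := by
  classical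
  have hc := (node_spec (qs_lt a (n + 1))).hcost
  rw [hc, costOf]
  set L := PL.filter fun p => decide (2 * p ≤ dep (qs a (n + 1))) &&
    (st (qs a (n + 1)) % 2 ^ p == st (qs a (n + 1)) / 2 ^ p % 2 ^ p) with hL
  have hnd : L.Nodup := PL_nodup.filter _
  rw [← List.toFinset_card_of_nodup hnd]
  have hmem : ∀ p ∈ L.toFinset, 1 ≤ p ∧ 2 * p ≤ n + 1 ∧
      ∀ k < p, a (n + 1 - 2 * p + k) = a (n + 1 - 2 * p + p + k) := by
    intro p hp
    rw [List.mem_toFinset, hL, List.mem_filter] at hp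
    simp only [Bool.and_eq_true, decide_eq_true_eq, beq_iff_eq] at hp
    obtain ⟨h1, h2, h3⟩ := hp
    exact ⟨PL_pos p h1, cost_sound a (n + 1) p h2 h3⟩
  have hinj : Function.Injective (fun p : ℕ => (n + 1 - 2 * p, p)) := by
    intro x y hxy
    simp only [Prod.mk.injEq] at hxy
    exact hxy.2
  rw [← Finset.card_image_of_injective L.toFinset hinj, ← Finset.card_union_of_disjoint]
  · apply Finset.card_le_card
    intro ij hij
    rw [Finset.mem_union] at hij
    rcases hij with h | h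
    · unfold SQ at h ⊢
      simp only [mem_filter, mem_product, mem_range, mem_Icc] at h ⊢
      refine ⟨⟨by omega, by omega, by omega⟩, by omega, h.2.2⟩
    · rw [Finset.mem_image] at h
      obtain ⟨p, hp, rfl⟩ := h
      obtain ⟨h1, h2, h3⟩ := hmem p hp
      unfold SQ
      simp only [mem_filter, mem_product, mem_range, mem_Icc]
      refine ⟨⟨by omega, by omega, by omega⟩, by omega, h3⟩
  · rw [Finset.disjoint_left]
    intro ij h1 h2
    rw [Finset.mem_image] at h2
    obtain ⟨p, hp, rfl⟩ := h2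
    obtain ⟨h3, h4, _⟩ := hmem p hp
    unfold SQ at h1
    simp only [mem_filter, mem_product, mem_range, mem_Icc] at h1
    omega

lemma Cs_le_SQ (a : ℕ → Bool) : ∀ n, Cs a n ≤ (SQ a n).card
  | 0 => Nat.zero_le _
  | n + 1 => by
    have h1 := Cs_le_SQ a n
    have h2 := SQ_succ a n
    have e1 : Cs a (n + 1) = Cs a n + cost (qs a (n + 1)) := rfl
    omega

/-- Lower bound for full words: `103 n - 187 s` is at most `487`, and at most `470` if even. -/
lemma SQ_bound (a : ℕ → Bool) (n : ℕ) :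
    103 * n ≤ 187 * (SQ a n).card + 487 ∧
      ((n + (SQ a n).card) % 2 = 0 → 103 * n ≤ 187 * (SQ a n).card + 470) := by
  have h1 := Cs_le_SQ a n
  obtain ⟨h2, h3⟩ := Cs_bound a n
  rcases Nat.eq_or_lt_of_le h1 with h | h
  · rw [← h]; exact ⟨h2, h3⟩
  · exact ⟨by omega, fun _ => by omega⟩

lemma SQ_exc (a : ℕ → Bool) (n s0 : ℕ) (h : layEmpty n s0 = true)
    (hD : 187 * s0 + 300 < 103 * n) : s0 + 1 ≤ (SQ a n).card := by
  have h1 := Cs_le_SQ a n
  have h2 := (Cs_bound a n).1
  have h3 := Cs_ne_of_layEmpty a n s0 h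
  omega

end Pool.Agent.H172.SqHole
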