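import Pool.Agent.H172.SqHole.AutoTab

namespace Pool.Agent.H172.SqHole

/-- List lookup with default `0`. -/
def nth : List ℕ → ℕ → ℕ
  | [], _ => 0
  | a :: _, 0 => a
  | _ :: l, n + 1 => nth l n

def rec0 (i : ℕ) : ℕ := (nth TBL (i / 32) >>> (352 * (i % 32))) % 2 ^ 352

def dep (i : ℕ) : ℕ := rec0 i % 2 ^ 9
def st (i : ℕ) : ℕ := rec0 i >>> 75
def nx (i : ℕ) (x : Bool) : ℕ :=
  match x with
  | false => (rec0 i >>> 9) % 2 ^ 11
  | true => (rec0 i >>> 20) % 2 ^ 11
def FF (i b : ℕ) : ℕ := if b = 0 then (rec0 i >>> 31) % 2 ^ 10 else (rec0 i >>> 41) % 2 ^ 10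
def UU (i b : ℕ) : ℕ := if b = 0 then (rec0 i >>> 51) % 2 ^ 10 else (rec0 i >>> 61) % 2 ^ 10
def cost (i : ℕ) : ℕ := (rec0 i >>> 71) % 2 ^ 4

def PL : List ℕ := [1, 2, 3, 4, 5, 6, 7, 40, 138]

def costOf (d s : ℕ) : ℕ :=
  (PL.filter fun p => decide (2 * p ≤ d) && (s % 2 ^ p == s / 2 ^ p % 2 ^ p)).length

def edgeOk (i : ℕ) (x : Bool) : Bool :=
  Nat.ble (nx i x + 1) 2007 &&
  (Nat.ble (dep (nx i x)) (dep i + 1) &&
  (Nat.beq ((2 * st i + x.toNat) % 2 ^ dep (nx i x)) (st (nx i x)) &&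
  (Nat.ble (FF i 0 + 103) (FF (nx i x) ((1 + cost (nx i x)) % 2) + 187 * cost (nx i x)) &&
  (Nat.ble (FF i 1 + 103) (FF (nx i x) (cost (nx i x) % 2) + 187 * cost (nx i x)) &&
  (Nat.ble (UU (nx i x) 0 + 103) (UU i ((1 + cost (nx i x)) % 2) + 187 * cost (nx i x)) &&
  Nat.ble (UU (nx i x) 1 + 103) (UU i (cost (nx i x) % 2) + 187 * cost (nx i x)))))))

def nodeOk (i : ℕ) : Bool :=
  Nat.beq (cost i) (costOf (dep i) (st i)) &&
  (Nat.ble (FF i 0) 535 && (Nat.ble (FF i 1) 552 && (Nat.ble 71 (UU i 0) &&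
  (edgeOk i false && edgeOk i true))))

def allOk : ℕ → ℕ → Bool
  | 0, _ => true
  | k + 1, i => nodeOk i && allOk k (i + 1)

theorem ok0 : allOk 502 0 = true := by decide +kernel
theorem ok1 : allOk 502 502 = true := by decide +kernel
theorem ok2 : allOk 502 1004 = true := by decide +kernel
theorem ok3 : allOk 501 1506 = true := by decide +kernel

lemma allOk_spec : ∀ k i, allOk k i = true → ∀ j, i ≤ j → j < i + k → nodeOk j = true := by
  intro k
  induction k with
  | zero => intro i _ j h1 h2; omega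
  | succ k ih =>
    intro i h j h1 h2
    rw [allOk, Bool.and_eq_true] at h
    by_cases hj : j = i
    · rw [hj]; exact h.1
    · exact ih (i + 1) h.2 j (by omega) (by omega)

theorem node_ok (j : ℕ) (hj : j < 2007) : nodeOk j = true := by
  rcases Nat.lt_or_ge j 502 with h | h
  · exact allOk_spec _ _ ok0 j (by omega) (by omega)
  rcases Nat.lt_or_ge j 1004 with h' | h'
  · exact allOk_spec _ _ ok1 j (by omega) (by omega)
  rcases Nat.lt_or_ge j 1506 with h'' | h''
  · exact allOk_spec _ _ ok2 j (by omega) (by omega)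
  · exact allOk_spec _ _ ok3 j (by omega) (by omega)

theorem root_dep : dep 0 = 0 := by decide +kernel
theorem root_st : st 0 = 0 := by decide +kernel
theorem root_F : FF 0 0 = 65 := by decide +kernel

/-- One layer of the pruned search for words of length `n` with at most `s0` counted squares. -/
def pok (n s0 k : ℕ) (qc : ℕ × ℕ) : Bool :=
  Nat.ble qc.2 s0 &&
  Nat.ble (103 * (n - k) + 71 + 187 * qc.2) (UU qc.1 ((n - k + s0 + qc.2) % 2) + 187 * s0)

def kids (qc : ℕ × ℕ) : List (ℕ × ℕ) :=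
  [(nx qc.1 false, qc.2 + cost (nx qc.1 false)), (nx qc.1 true, qc.2 + cost (nx qc.1 true))]

def lay (n s0 : ℕ) : ℕ → List (ℕ × ℕ)
  | 0 => [(0, 0)]
  | k + 1 => ((lay n s0 k).flatMap kids).filter (pok n s0 (k + 1))

def layEmpty (n s0 : ℕ) : Bool := (lay n s0 n).all fun qc => !(Nat.beq qc.2 s0)

theorem lay4 : layEmpty 4 0 = true := by decide +kernel
theorem lay6 : layEmpty 6 1 = true := by decide +kernel
theorem lay10 : layEmpty 10 3 = true := by decide +kernel
theorem lay39 : layEmpty 39 19 = true := by decide +kernel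
theorem lay79 : layEmpty 79 41 = true := by decide +kernel
theorem lay128 : layEmpty 128 68 = true := by decide +kernel

end Pool.Agent.H172.SqHole
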