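import Pool.Agent.H172.SqHole.NoSq

namespace Pool.Agent.H172.SqHole

open Finset

lemma count_congr' {p q : ℕ → Prop} [DecidablePred p] [DecidablePred q] (n : ℕ)
    (h : ∀ r < n, p r ↔ q r) : Nat.count p n = Nat.count q n := by
  rw [Nat.count_eq_card_filter_range, Nat.count_eq_card_filter_range]
  congr 1
  apply Finset.filter_congr
  intro r hr
  exact h r (Finset.mem_range.mp hr)

def P1 (f : ℕ → Bool) (x : ℕ) : Prop := f x = f (x + 1)
def P2 (f : ℕ → Bool) (x : ℕ) : Prop := f x = f (x + 2) ∧ f (x + 1) = f (x + 3)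

instance (f : ℕ → Bool) (x : ℕ) : Decidable (P1 f x) := by unfold P1; infer_instance
instance (f : ℕ → Bool) (x : ℕ) : Decidable (P2 f x) := by unfold P2; infer_instance

def T (f : ℕ → Bool) (x m1 m2 : ℕ) : ℕ :=
  Nat.count (fun i => P1 f (x + i)) m1 + Nat.count (fun i => P2 f (x + i)) m2

lemma T_add (f : ℕ → Bool) (x m m1 m2 : ℕ) :
    T f x (m + m1) (m + m2) = T f x m m + T f (x + m) m1 m2 := by
  unfold T
  rw [Nat.count_add, Nat.count_add]
  have e1 : Nat.count (fun k => P1 f (x + (m + k))) m1 = Nat.count (fun k => P1 f (x + m + k)) m1 :=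
    count_congr' _ (fun r _ => by rw [Nat.add_assoc])
  have e2 : Nat.count (fun k => P2 f (x + (m + k))) m2 = Nat.count (fun k => P2 f (x + m + k)) m2 :=
    count_congr' _ (fun r _ => by rw [Nat.add_assoc])
  rw [e1, e2]
  ring

lemma T_congr {f g : ℕ → Bool} {x y m1 m2 N : ℕ} (h : ∀ r < N, f (x + r) = g (y + r))
    (h1 : m1 + 1 ≤ N) (h2 : m2 + 3 ≤ N) : T f x m1 m2 = T g y m1 m2 := by
  unfold T
  congr 1
  · apply count_congr'
    intro r hr
    unfold P1
    rw [h r (by omega), Nat.add_assoc, h (r + 1) (by omega), ← Nat.add_assoc]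
  · apply count_congr'
    intro r hr
    unfold P2
    rw [h r (by omega), Nat.add_assoc x, h (r + 2) (by omega), Nat.add_assoc x,
      h (r + 1) (by omega), Nat.add_assoc x, h (r + 3) (by omega), ← Nat.add_assoc,
      ← Nat.add_assoc, ← Nat.add_assoc]

def Y (f0 f1 f2 : Bool) (r : ℕ) : Bool :=
  if r = 0 then f0 else if r = 187 then f1 else if r = 374 then f2 else PR.testBit (r % 374)

theorem block_Y : ∀ f0 f1 f2 : Bool, T (Y f0 f1 f2) 0 374 374 + f0.toNat = 206 + f2.toNat := by
  decide +kernel

theorem end_Y : ∀ f0 f1 f2 : Bool, T (Y f0 f1 f2) 0 58 56 + f0.toNat = 32 := by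
  decide +kernel

lemma W_eq_Y (c j r : ℕ) (hr : r < 377) :
    W c (374 * j + r) = Y (pf (2 * j + c)) (pf (2 * j + 1 + c)) (pf (2 * j + 2 + c)) (0 + r) := by
  unfold Y
  rw [Nat.zero_add]
  split_ifs with h0 h1 h2
  · have : 374 * j + r = 187 * (2 * j) := by omega
    rw [this, W_mul]
  · have : 374 * j + r = 187 * (2 * j + 1) := by omega
    rw [this, W_mul]
  · have : 374 * j + r = 187 * (2 * j + 2) := by omega
    rw [this, W_mul]
  · rw [W_of_ne (by omega)]
    congr 1
    omega

lemma T_block (c j : ℕ) :
    T (W c) (374 * j) 374 374 + (pf (2 * j + c)).toNat = 206 + (pf (2 * j + 2 + c)).toNat := by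
  rw [T_congr (f := W c) (N := 377) (fun r hr => W_eq_Y c j r hr) (by norm_num) (by norm_num)]
  exact block_Y _ _ _

lemma T_end (c j : ℕ) :
    T (W c) (374 * j) 58 56 + (pf (2 * j + c)).toNat = 32 := by
  rw [T_congr (f := W c) (N := 377) (fun r hr => W_eq_Y c j r hr) (by norm_num) (by norm_num)]
  exact end_Y _ _ _

lemma T_total (c : ℕ) : ∀ b j, T (W c) (374 * j) (374 * b + 58) (374 * b + 56) +
    (pf (2 * j + c)).toNat = 206 * b + 32
  | 0, j => by
    have := T_end c j
    simpa using this
  | b + 1, j => by
    have ih := T_total c b (j + 1)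
    have hb := T_block c j
    have e1 : 374 * (b + 1) + 58 = 374 + (374 * b + 58) := by ring
    have e2 : 374 * (b + 1) + 56 = 374 + (374 * b + 56) := by ring
    have e3 : 374 * j + 374 = 374 * (j + 1) := by ring
    have e4 : 2 * (j + 1) + c = 2 * j + 2 + c := by ring
    rw [e4] at ih
    rw [e1, e2, T_add, e3]
    omega

lemma T_tail {c : ℕ} (hc : c < 3) (b : ℕ) :
    T (W c) 748 (374 * b + 58) (374 * b + 56) = 206 * b + eC c := by
  have h := T_total c b 2
  have e : 374 * 2 = 748 := by norm_num
  rw [e] at h
  interval_cases c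
  · have : pf (2 * 2 + 0) = false := pf4
    rw [this] at h
    simp only [Bool.toNat_false, Nat.add_zero] at h
    rw [h]; rfl
  · have : pf (2 * 2 + 1) = true := pf5
    rw [this] at h
    simp only [Bool.toNat_true] at h
    show _ = 206 * b + 31
    omega
  · have : pf (2 * 2 + 2) = true := pf6
    rw [this] at h
    simp only [Bool.toNat_true] at h
    show _ = 206 * b + 31
    omega

def kmAll : ℕ → Bool
  | 0 => true
  | y + 1 => KM.testBit (188 + y) && kmAll y

theorem kmAll_true : kmAll 564 = true := by decide +kernel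

lemma kmAll_spec : ∀ n, kmAll n = true → ∀ y < n, KM.testBit (188 + y) = true := by
  intro n
  induction n with
  | zero => intro _ y h2; omega
  | succ n ih =>
    intro h d h2
    rw [kmAll, Bool.and_eq_true] at h
    by_cases hd : d = n
    · rw [hd]; exact h.1
    · exact ih h.2 d (by omega)

lemma KM_known {y : ℕ} (h1 : 188 ≤ y) (h2 : y < 752) : KM.testBit y = true := by
  have := kmAll_spec _ kmAll_true (y - 188) (by omega)
  have e : 188 + (y - 188) = y := by omega
  rw [e] at this
  exact this

lemma compl_testBit (M L i : ℕ) (hi : i < L) :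
    ((2 ^ L - 1) ^^^ (M % 2 ^ L)).testBit i = !(M.testBit i) := by
  rw [Nat.testBit_xor, Nat.testBit_two_pow_sub_one, Nat.testBit_mod_two_pow]
  simp [hi]

lemma head_count {S c τ β : ℕ} (h : CheckSpec S c τ β) :
    T (X S c τ β) S (748 - S) (748 - S) = hc1 S (KF S c τ β) + hc2 S (KF S c τ β) := by
  obtain ⟨hS1, hS2, hτ, hc, hβ, -, -⟩ := h
  have hK : ∀ y, S ≤ y → y < 752 → (KF S c τ β).testBit y = X S c τ β y := fun y h1 h2 =>
    KF_spec hc hβ h1 (KM_known (by omega) h2)
  unfold T hc1 hc2
  rw [pcF_eq, pcF_eq, Nat.count_eq_card_filter_range, Nat.count_eq_card_filter_range]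
  congr 1
  · congr 1
    apply Finset.filter_congr
    intro i hi
    rw [Finset.mem_range] at hi
    rw [compl_testBit _ _ _ hi, Nat.testBit_shiftRight, Nat.testBit_xor, Nat.testBit_shiftRight,
      hK _ (by omega) (by omega), hK _ (by omega) (by omega)]
    unfold P1
    have e : 1 + (S + i) = S + i + 1 := by omega
    rw [e]
    cases X S c τ β (S + i) <;> cases X S c τ β (S + i + 1) <;> simp
  · congr 1
    apply Finset.filter_congr
    intro i hi
    rw [Finset.mem_range] at hi
    rw [Nat.testBit_and, compl_testBit _ _ _ hi, compl_testBit _ _ _ hi, Nat.testBit_shiftRight,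
      Nat.testBit_xor, Nat.testBit_shiftRight, Nat.testBit_shiftRight,
      Nat.testBit_xor, Nat.testBit_shiftRight,
      hK _ (by omega) (by omega), hK _ (by omega) (by omega), hK _ (by omega) (by omega),
      hK _ (by omega) (by omega)]
    unfold P2
    have e : 2 + (S + i) = S + i + 2 := by omega
    have e1 : S + 1 + i = S + i + 1 := by omega
    have e2 : 2 + (S + 1 + i) = S + i + 3 := by omega
    rw [e2, e, e1]
    cases X S c τ β (S + i) <;> cases X S c τ β (S + i + 2) <;>
      cases X S c τ β (S + i + 1) <;> cases X S c τ β (S + i + 3) <;> simp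

theorem pr56 : PR.testBit 56 = true := by decide +kernel
theorem pr58 : PR.testBit 58 = false := by decide +kernel

lemma family_bound {S c τ β : ℕ} (h : CheckSpec S c τ β) (b n : ℕ)
    (hn : n = 374 * b + (808 - S)) :
    ∑ p ∈ Finset.Icc 1 n, ((Finset.range (n + 1)).filter
      (fun i => HSq (fun t => X S c τ β (S + t)) n i p)).card ≤
      hc1 S (KF S c τ β) + hc2 S (KF S c τ β) + eC c + 206 * b + 1 := by
  classical
  have hS1 := h.hS1
  have hS2 := h.hS2
  have hτ := h.hτ
  have hsub : ({1, 2} : Finset ℕ) ⊆ Finset.Icc 1 n := by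
    intro x hx
    simp only [mem_insert, mem_singleton] at hx
    rw [Finset.mem_Icc]
    omega
  rw [← Finset.sum_subset hsub]
  · rw [Finset.sum_pair (by norm_num)]
    have hc1' : ((Finset.range (n + 1)).filter
        (fun i => HSq (fun t => X S c τ β (S + t)) n i 1)).card ≤
        Nat.count (fun i => P1 (X S c τ β) (S + i)) (748 - S + (374 * b + 58)) + 1 := by
      rw [Nat.count_eq_card_filter_range]
      refine le_trans (Finset.card_le_card (t := insert (n - 2) (((Finset.range
        (748 - S + (374 * b + 58)))).filter (fun i => P1 (X S c τ β) (S + i)))) ?_)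
        (Finset.card_insert_le _ _)
      intro i hi
      simp only [mem_filter, mem_range] at hi
      obtain ⟨_, hi1, hi2⟩ := hi
      rw [Finset.mem_insert]
      by_cases h0 : i = n - 2
      · left; exact h0
      · right
        rw [Finset.mem_filter, Finset.mem_range]
        refine ⟨by omega, ?_⟩
        have := hi2 0 (by norm_num) (by omega)
        simpa [P1, Nat.add_assoc] using this
    have hc2' : ((Finset.range (n + 1)).filter
        (fun i => HSq (fun t => X S c τ β (S + t)) n i 2)).card ≤
        Nat.count (fun i => P2 (X S c τ β) (S + i)) (748 - S + (374 * b + 56)) := by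
      rw [Nat.count_eq_card_filter_range]
      apply Finset.card_le_card
      intro i hi
      simp only [mem_filter, mem_range] at hi
      obtain ⟨_, hi1, hi2⟩ := hi
      rw [Finset.mem_filter, Finset.mem_range]
      have hne : i + 4 ≠ n := by
        intro h4
        have h0 := hi2 0 (by norm_num) (by omega)
        have e1 : S + (i + 0) = 804 + 374 * b := by omega
        have e2 : S + (i + 2 + 0) = 806 + 374 * b := by omega
        simp only [e1, e2] at h0
        rw [X_of_ge (by omega), X_of_ge (by omega), W_of_ne (by omega), W_of_ne (by omega)] at h0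
        have e3 : (804 + 374 * b) % 374 = 56 := by omega
        have e4 : (806 + 374 * b) % 374 = 58 := by omega
        rw [e3, e4, pr56, pr58] at h0
        exact Bool.noConfusion h0
      refine ⟨by omega, ?_, ?_⟩
      · have := hi2 0 (by norm_num) (by omega)
        simpa [Nat.add_assoc] using this
      · have := hi2 1 (by norm_num) (by omega)
        simpa [Nat.add_assoc] using this
    have hT := T_add (X S c τ β) S (748 - S) (374 * b + 58) (374 * b + 56)
    rw [head_count h] at hT
    have e5 : S + (748 - S) = 748 := by omega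
    rw [e5] at hT
    have hW : T (X S c τ β) 748 (374 * b + 58) (374 * b + 56) =
        T (W c) 748 (374 * b + 58) (374 * b + 56) :=
      T_congr (N := 374 * b + 59) (fun r _ => X_of_ge (by omega)) (by omega) (by omega)
    rw [hW, T_tail h.hc] at hT
    have hT' : T (X S c τ β) S (748 - S + (374 * b + 58)) (748 - S + (374 * b + 56)) =
      Nat.count (fun i => P1 (X S c τ β) (S + i)) (748 - S + (374 * b + 58)) +
      Nat.count (fun i => P2 (X S c τ β) (S + i)) (748 - S + (374 * b + 56)) := rfl
    omega
  · intro p hp hp2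
    rw [Finset.mem_Icc] at hp
    simp only [mem_insert, mem_singleton, not_or] at hp2
    rw [Finset.card_eq_zero, Finset.filter_eq_empty_iff]
    intro i _ hsq
    obtain ⟨hi1, hi2⟩ := hsq
    apply no_sq h b (S + i) p (by omega) (by omega) (by omega)
    intro k hk hne
    have := hi2 k hk (by omega)
    simpa [Nat.add_assoc] using this

end Pool.Agent.H172.SqHole
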