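import Pool.Agent.H172.SqHole.Family

namespace Pool.Agent.H172.SqHole

def datOk : List (ℕ × ℕ × ℕ) → ℕ → Bool
  | [], _ => true
  | (c, τ, β) :: l, S => checkS S c τ β && datOk l (S + 1)

lemma datOk_spec : ∀ (l : List (ℕ × ℕ × ℕ)) (S : ℕ), datOk l S = true → ∀ j, S ≤ j →
    j < S + l.length → ∃ c τ β, checkS j c τ β = true := by
  intro l
  induction l with
  | nil => intro S _ j h1 h2; simp at h2; omega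
  | cons a l ih =>
    intro S h j h1 h2
    obtain ⟨c, τ, β⟩ := a
    rw [datOk, Bool.and_eq_true] at h
    by_cases hj : j = S
    · exact ⟨c, τ, β, by rw [hj]; exact h.1⟩
    · exact ih (S + 1) h.2 j (by omega) (by simp at h2; omega)

def dat0 : List (ℕ × ℕ × ℕ) := [
  (0, 7, 0x32),
  (0, 0, 0x0),
  (0, 0, 0x0),
  (0, 0, 0x0),
  (0, 1, 0x1),
  (0, 0, 0x0),
  (0, 1, 0x0),
  (0, 0, 0x0),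
  (0, 4, 0x2),
  (0, 10, 0x34d),
  (0, 0, 0x0),
  (0, 0, 0x0),
  (0, 0, 0x0),
  (0, 9, 0x14d),
  (0, 0, 0x0),
  (0, 4, 0xd),
  (0, 0, 0x0),
  (0, 0, 0x0),
  (0, 0, 0x0),
  (0, 0, 0x0),
  (0, 39, 0x1a32c698b2),
  (0, 0, 0x0),
  (0, 9, 0xb2),
  (0, 0, 0x0),
  (0, 0, 0x0),
  (0, 0, 0x0),
  (0, 3, 0x5),
  (0, 0, 0x0),
  (0, 0, 0x0),
  (0, 0, 0x0),
  (0, 0, 0x0),
  (0, 9, 0x14d),
  (0, 0, 0x0),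
  (0, 0, 0x0),
  (0, 0, 0x0),
  (0, 1, 0x0),
  (0, 0, 0x0),
  (0, 3, 0x5),
  (0, 0, 0x0),
  (0, 0, 0x0),
  (0, 7, 0x32),
  (0, 0, 0x0),
  (0, 0, 0x0),
  (0, 0, 0x0),
  (0, 1, 0x1),
  (0, 0, 0x0),
  (0, 1, 0x0)]

theorem dat0_ok : datOk dat0 188 = true := by decide +kernel

def dat1 : List (ℕ × ℕ × ℕ) := [
  (0, 0, 0x0),
  (0, 1, 0x1),
  (0, 7, 0x4d),
  (0, 0, 0x0),
  (0, 0, 0x0),
  (0, 0, 0x0),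
  (0, 1, 0x0),
  (0, 0, 0x0),
  (0, 1, 0x1),
  (0, 0, 0x0),
  (0, 4, 0xd),
  (0, 10, 0xb2),
  (0, 0, 0x0),
  (0, 0, 0x0),
  (0, 0, 0x0),
  (0, 9, 0xb2),
  (0, 0, 0x0),
  (0, 4, 0x2),
  (0, 0, 0x0),
  (0, 0, 0x0),
  (0, 0, 0x0),
  (0, 0, 0x0),
  (0, 48, 0x4d65cd39674d),
  (0, 0, 0x0),
  (0, 9, 0x14d),
  (0, 0, 0x0),
  (0, 0, 0x0),
  (0, 0, 0x0),
  (0, 3, 0x2),
  (0, 0, 0x0),
  (0, 0, 0x0),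
  (0, 0, 0x0),
  (0, 0, 0x0),
  (0, 9, 0xb2),
  (0, 0, 0x0),
  (0, 0, 0x0),
  (0, 0, 0x0),
  (0, 1, 0x1),
  (0, 0, 0x0),
  (0, 3, 0x2),
  (0, 0, 0x0),
  (0, 0, 0x0),
  (0, 7, 0x4d),
  (0, 0, 0x0),
  (0, 0, 0x0),
  (0, 0, 0x0),
  (0, 1, 0x0)]

theorem dat1_ok : datOk dat1 235 = true := by decide +kernel

def dat2 : List (ℕ × ℕ × ℕ) := [
  (0, 0, 0x0),
  (0, 1, 0x1),
  (0, 0, 0x0),
  (0, 4, 0xd),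
  (0, 29, 0x12ce98b2),
  (0, 0, 0x0),
  (0, 0, 0x0),
  (0, 0, 0x0),
  (0, 9, 0xb2),
  (0, 0, 0x0),
  (0, 4, 0x2),
  (0, 0, 0x0),
  (0, 0, 0x0),
  (0, 0, 0x0),
  (0, 0, 0x0),
  (0, 8, 0x4d),
  (0, 0, 0x0),
  (0, 9, 0x14d),
  (0, 0, 0x0),
  (0, 0, 0x0),
  (0, 0, 0x0),
  (0, 2, 0x1),
  (0, 1, 0x0),
  (0, 0, 0x0),
  (0, 128, 0xcb9a72ce9acb9a72c698b29a32c698b2),
  (0, 0, 0x0),
  (0, 9, 0xb2),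
  (0, 0, 0x0),
  (0, 0, 0x0),
  (0, 0, 0x0),
  (0, 3, 0x5),
  (0, 0, 0x0),
  (0, 0, 0x0),
  (0, 0, 0x0),
  (0, 0, 0x0),
  (0, 9, 0x14d),
  (0, 0, 0x0),
  (0, 0, 0x0),
  (0, 0, 0x0),
  (0, 1, 0x0),
  (0, 0, 0x0),
  (0, 3, 0x5),
  (0, 0, 0x0),
  (0, 0, 0x0),
  (0, 7, 0x32),
  (0, 0, 0x0),
  (0, 0, 0x0)]

theorem dat2_ok : datOk dat2 282 = true := by decide +kernel

def dat3 : List (ℕ × ℕ × ℕ) := [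
  (0, 0, 0x0),
  (0, 1, 0x1),
  (0, 0, 0x0),
  (0, 1, 0x0),
  (0, 0, 0x0),
  (0, 4, 0x2),
  (0, 10, 0x34d),
  (0, 0, 0x0),
  (0, 0, 0x0),
  (0, 0, 0x0),
  (0, 9, 0x14d),
  (0, 0, 0x0),
  (0, 4, 0xd),
  (0, 0, 0x0),
  (0, 0, 0x0),
  (0, 0, 0x0),
  (0, 0, 0x0),
  (0, 39, 0x1a32c698b2),
  (0, 0, 0x0),
  (0, 9, 0xb2),
  (0, 0, 0x0),
  (0, 0, 0x0),
  (0, 0, 0x0),
  (0, 3, 0x5),
  (0, 0, 0x0),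
  (0, 0, 0x0),
  (0, 137, 0x16534658d316534658d39674d65cd39674d),
  (0, 0, 0x0),
  (0, 9, 0x14d),
  (0, 0, 0x0),
  (0, 0, 0x0),
  (0, 0, 0x0),
  (0, 1, 0x0),
  (0, 0, 0x0),
  (0, 1, 0x1),
  (0, 0, 0x0),
  (0, 0, 0x0),
  (1, 7, 0x32),
  (0, 0, 0x0),
  (0, 0, 0x0),
  (0, 0, 0x0),
  (0, 1, 0x1),
  (0, 0, 0x0),
  (1, 1, 0x0),
  (0, 0, 0x0),
  (0, 0, 0x0),
  (0, 7, 0x4d)]

theorem dat3_ok : datOk dat3 329 = true := by decide +kernel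

def dat4 : List (ℕ × ℕ × ℕ) := [
  (0, 0, 0x0),
  (0, 0, 0x0),
  (0, 0, 0x0),
  (0, 1, 0x0),
  (0, 0, 0x0),
  (0, 1, 0x1),
  (0, 0, 0x0),
  (0, 4, 0xd),
  (0, 10, 0xb2),
  (0, 0, 0x0),
  (0, 0, 0x0),
  (0, 0, 0x0),
  (0, 9, 0xb2),
  (0, 0, 0x0),
  (0, 4, 0x2),
  (0, 0, 0x0),
  (0, 0, 0x0),
  (0, 0, 0x0),
  (0, 0, 0x0),
  (0, 39, 0x65cd39674d),
  (0, 0, 0x0),
  (0, 9, 0x14d),
  (0, 0, 0x0),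
  (0, 0, 0x0),
  (0, 0, 0x0),
  (0, 3, 0x2),
  (0, 0, 0x0),
  (0, 0, 0x0),
  (0, 0, 0x0),
  (0, 0, 0x0),
  (0, 9, 0xb2),
  (0, 0, 0x0),
  (0, 0, 0x0),
  (0, 0, 0x0),
  (0, 1, 0x1),
  (0, 0, 0x0),
  (0, 3, 0x2),
  (0, 0, 0x0),
  (0, 0, 0x0),
  (0, 7, 0x4d),
  (0, 0, 0x0),
  (0, 0, 0x0),
  (0, 0, 0x0),
  (0, 1, 0x0),
  (0, 0, 0x0),
  (0, 1, 0x1),
  (0, 0, 0x0)]

theorem dat4_ok : datOk dat4 376 = true := by decide +kernel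

def dat5 : List (ℕ × ℕ × ℕ) := [
  (0, 1, 0x0),
  (0, 7, 0x32),
  (0, 0, 0x0),
  (0, 0, 0x0),
  (0, 0, 0x0),
  (0, 1, 0x1),
  (0, 0, 0x0),
  (0, 1, 0x0),
  (0, 0, 0x0),
  (0, 4, 0x2),
  (0, 10, 0x34d),
  (0, 0, 0x0),
  (0, 0, 0x0),
  (0, 0, 0x0),
  (0, 9, 0x14d),
  (0, 0, 0x0),
  (0, 4, 0xd),
  (0, 0, 0x0),
  (0, 0, 0x0),
  (0, 0, 0x0),
  (0, 0, 0x0),
  (0, 48, 0xb29a32c698b2),
  (0, 0, 0x0),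
  (0, 9, 0xb2),
  (0, 0, 0x0),
  (0, 0, 0x0),
  (0, 0, 0x0),
  (0, 3, 0x5),
  (0, 0, 0x0),
  (0, 0, 0x0),
  (0, 0, 0x0),
  (0, 0, 0x0),
  (0, 9, 0x14d),
  (0, 0, 0x0),
  (0, 0, 0x0),
  (0, 0, 0x0),
  (0, 1, 0x0),
  (0, 0, 0x0),
  (0, 3, 0x5),
  (0, 0, 0x0),
  (0, 0, 0x0),
  (0, 7, 0x32),
  (0, 0, 0x0),
  (0, 0, 0x0),
  (0, 0, 0x0),
  (0, 1, 0x1),
  (0, 0, 0x0)]

theorem dat5_ok : datOk dat5 423 = true := by decide +kernel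

def dat6 : List (ℕ × ℕ × ℕ) := [
  (0, 1, 0x0),
  (0, 0, 0x0),
  (0, 4, 0x2),
  (0, 29, 0xd31674d),
  (0, 0, 0x0),
  (0, 0, 0x0),
  (0, 0, 0x0),
  (0, 9, 0x14d),
  (0, 0, 0x0),
  (0, 4, 0xd),
  (0, 0, 0x0),
  (0, 0, 0x0),
  (0, 0, 0x0),
  (0, 0, 0x0),
  (0, 8, 0xb2),
  (0, 0, 0x0),
  (0, 9, 0xb2),
  (0, 0, 0x0),
  (0, 0, 0x0),
  (0, 0, 0x0),
  (0, 2, 0x2),
  (0, 1, 0x1),
  (0, 0, 0x0),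
  (0, 128, 0x34658d316534658d39674d65cd39674d),
  (0, 0, 0x0),
  (0, 9, 0x14d),
  (0, 0, 0x0),
  (0, 0, 0x0),
  (0, 0, 0x0),
  (0, 3, 0x2),
  (0, 0, 0x0),
  (0, 0, 0x0),
  (0, 0, 0x0),
  (0, 0, 0x0),
  (0, 9, 0xb2),
  (0, 0, 0x0),
  (0, 0, 0x0),
  (0, 0, 0x0),
  (0, 1, 0x1),
  (0, 0, 0x0),
  (0, 3, 0x2),
  (0, 0, 0x0),
  (0, 0, 0x0),
  (0, 7, 0x4d),
  (0, 0, 0x0),
  (0, 0, 0x0),
  (0, 0, 0x0)]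

theorem dat6_ok : datOk dat6 470 = true := by decide +kernel

def dat7 : List (ℕ × ℕ × ℕ) := [
  (0, 1, 0x0),
  (0, 0, 0x0),
  (0, 1, 0x1),
  (0, 0, 0x0),
  (0, 4, 0xd),
  (0, 10, 0xb2),
  (0, 0, 0x0),
  (0, 0, 0x0),
  (0, 0, 0x0),
  (0, 9, 0xb2),
  (0, 0, 0x0),
  (0, 4, 0x2),
  (0, 0, 0x0),
  (0, 0, 0x0),
  (0, 0, 0x0),
  (0, 0, 0x0),
  (0, 39, 0x65cd39674d),
  (0, 0, 0x0),
  (0, 9, 0x14d),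
  (0, 0, 0x0),
  (0, 0, 0x0),
  (0, 0, 0x0),
  (0, 3, 0x2),
  (0, 0, 0x0),
  (0, 0, 0x0),
  (1, 137, 0x9acb9a72ce9acb9a72c698b29a32c698b2),
  (0, 0, 0x0),
  (0, 9, 0xb2),
  (0, 0, 0x0),
  (0, 0, 0x0),
  (0, 0, 0x0),
  (0, 1, 0x1),
  (0, 0, 0x0),
  (0, 1, 0x0),
  (0, 0, 0x0),
  (0, 0, 0x0),
  (2, 7, 0x4d),
  (0, 0, 0x0),
  (0, 0, 0x0),
  (0, 0, 0x0),
  (0, 1, 0x0),
  (0, 0, 0x0),
  (2, 1, 0x1),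
  (0, 0, 0x0),
  (0, 0, 0x0)]

theorem dat7_ok : datOk dat7 517 = true := by decide +kernel

theorem exists_check (j : ℕ) (h1 : 188 ≤ j) (h2 : j ≤ 561) : ∃ c τ β, checkS j c τ β = true := by
  rcases Nat.lt_or_ge j 235 with h | h
  · exact datOk_spec _ _ dat0_ok j (by omega) (by simpa [dat0] using h)
  rcases Nat.lt_or_ge j 282 with h | h
  · exact datOk_spec _ _ dat1_ok j (by omega) (by simpa [dat1] using h)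
  rcases Nat.lt_or_ge j 329 with h | h
  · exact datOk_spec _ _ dat2_ok j (by omega) (by simpa [dat2] using h)
  rcases Nat.lt_or_ge j 376 with h | h
  · exact datOk_spec _ _ dat3_ok j (by omega) (by simpa [dat3] using h)
  rcases Nat.lt_or_ge j 423 with h | h
  · exact datOk_spec _ _ dat4_ok j (by omega) (by simpa [dat4] using h)
  rcases Nat.lt_or_ge j 470 with h | h
  · exact datOk_spec _ _ dat5_ok j (by omega) (by simpa [dat5] using h)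
  rcases Nat.lt_or_ge j 517 with h | h
  · exact datOk_spec _ _ dat6_ok j (by omega) (by simpa [dat6] using h)
  · exact datOk_spec _ _ dat7_ok j (by omega) (by simp [dat7]; omega)

end Pool.Agent.H172.SqHole
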