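import Mathlib

/-!
Square occurrences in binary words with holes: the definitions used in the statement.
-/

namespace Pool.Agent.H172.SqHole

/-- A binary word of length `n` in which some letters may be holes (`none`). -/
abbrev PWord (n : ℕ) := Fin n → Option Bool

/-- The number of holes of `w`. -/
def holeCount {n : ℕ} (w : PWord n) : ℕ :=
  (Finset.univ.filter fun t => w t = none).card

/-- The full words `z` of length `j` such that the factor `a_i ... a_{i+2j-1}` of `w`
agrees with `zz` at every position where it is not a hole. -/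
def fillings {n : ℕ} (w : PWord n) (i j : ℕ) : Finset (Fin j → Bool) :=
  Finset.univ.filter fun z => ∀ (t : Fin n) (k : Fin j),
    ((t : ℕ) = i + k ∨ (t : ℕ) = i + j + k) → w t = none ∨ w t = some (z k)

/-- The number of square occurrences `s(w)`: the sum over all `i ≥ 0`, `j ≥ 1` with
`i + 2j ≤ n` of the number of `z` with `a_i ... a_{i+2j-1} ⊂ zz`. -/
def sqOcc {n : ℕ} (w : PWord n) : ℕ :=
  ∑ ij ∈ (Finset.range (n + 1) ×ˢ Finset.Icc 1 n).filter (fun ij => ij.1 + 2 * ij.2 ≤ n),
    (fillings w ij.1 ij.2).card

/-- `γ_h(n)`: the least `s(w)` over binary words `w` of length `n` with exactly `h` holes. -/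
noncomputable def gamma (h n : ℕ) : ℕ :=
  sInf {m | ∃ w : PWord n, holeCount w = h ∧ sqOcc w = m}

end Pool.Agent.H172.SqHole
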