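import Pool.Agent.H172.SqHole.Word
import Pool.Agent.H172.SqHole.Small

namespace Pool.Agent.H172.SqHole

/-- The letters at the multiples `374, 561, 748` for the three shifts `c = 0, 1, 2`. -/
def GG (c : ℕ) : ℕ :=
  if c = 0 then PW4 ||| 2 ^ 374 else if c = 1 then PW4 ||| 2 ^ 748 else PW4 ||| (2 ^ 561 + 2 ^ 748)

/-- The letters of the word with modified beginning `β` on `[S, S + τ)`. -/
def KF (S c τ β : ℕ) : ℕ := (β <<< S) ||| ((GG c >>> (S + τ)) <<< (S + τ))

/-- The word itself. -/
def X (S c τ β x : ℕ) : Bool := if x < S + τ then β.testBit (x - S) else W c x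

def cg (c y : ℕ) : Bool :=
  !(KM.testBit y) || (if y % 187 = 0 then (Nat.beq y 374 || Nat.beq y 561 || Nat.beq y 748 || Nat.beq y 0)
    else ((GG c).testBit y == PR.testBit (y % 374)) && (Nat.ble y 1215 && (!(Nat.beq y 807) && !(Nat.beq y 1181))))

def cgAll (c : ℕ) : ℕ → Bool
  | 0 => true
  | y + 1 => cg c y && cgAll c y

theorem cgAll0 : cgAll 0 1216 = true := by decide +kernel
theorem cgAll1 : cgAll 1 1216 = true := by decide +kernel
theorem cgAll2 : cgAll 2 1216 = true := by decide +kernel
theorem KM_lt : KM < 2 ^ 1216 := by decide +kernel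
theorem KM0 : KM.testBit 0 = false := by decide +kernel

lemma cgAll_spec (c : ℕ) : ∀ n, cgAll c n = true → ∀ y < n, cg c y = true := by
  intro n
  induction n with
  | zero => intro _ y h2; omega
  | succ n ih =>
    intro h d h2
    rw [cgAll, Bool.and_eq_true] at h
    by_cases hd : d = n
    · rw [hd]; exact h.1
    · exact ih h.2 d (by omega)

lemma cg_true {c : ℕ} (hc : c < 3) {y : ℕ} (hy : y < 1216) : cg c y = true := by
  interval_cases c
  · exact cgAll_spec _ _ cgAll0 y hy
  · exact cgAll_spec _ _ cgAll1 y hy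
  · exact cgAll_spec _ _ cgAll2 y hy

lemma GG_spec {c : ℕ} (hc : c < 3) {y : ℕ} (h : KM.testBit y = true) :
    (GG c).testBit y = W c y ∧ y ≠ 807 ∧ y ≠ 1181 ∧ y < 1216 := by
  have hy := lt_of_testBit KM_lt h
  have h1 := cg_true hc hy
  unfold cg at h1
  rw [h] at h1
  simp only [Bool.not_true, Bool.false_or] at h1
  split_ifs at h1 with h2
  · simp only [Bool.or_eq_true] at h1
    have h3 : y = 374 ∨ y = 561 ∨ y = 748 := by
      rcases h1 with ((h1 | h1) | h1) | h1
      · exact Or.inl (Nat.eq_of_beq_eq_true h1)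
      · exact Or.inr (Or.inl (Nat.eq_of_beq_eq_true h1))
      · exact Or.inr (Or.inr (Nat.eq_of_beq_eq_true h1))
      · rw [Nat.eq_of_beq_eq_true h1, KM0] at h
        exact absurd h (by simp)
    refine ⟨?_, by omega, by omega, hy⟩
    rw [W, if_pos h2]
    interval_cases c
    · rcases h3 with rfl | rfl | rfl
      · have : pf (374 / 187 + 0) = true := pf2
        rw [this]; decide +kernel
      · have : pf (561 / 187 + 0) = false := pf3
        rw [this]; decide +kernel
      · have : pf (748 / 187 + 0) = false := pf4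
        rw [this]; decide +kernel
    · rcases h3 with rfl | rfl | rfl
      · have : pf (374 / 187 + 1) = false := pf3
        rw [this]; decide +kernel
      · have : pf (561 / 187 + 1) = false := pf4
        rw [this]; decide +kernel
      · have : pf (748 / 187 + 1) = true := pf5
        rw [this]; decide +kernel
    · rcases h3 with rfl | rfl | rfl
      · have : pf (374 / 187 + 2) = false := pf4
        rw [this]; decide +kernel
      · have : pf (561 / 187 + 2) = true := pf5
        rw [this]; decide +kernel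
      · have : pf (748 / 187 + 2) = true := pf6
        rw [this]; decide +kernel
  · simp only [Bool.and_eq_true, beq_iff_eq, Bool.not_eq_true'] at h1
    obtain ⟨h3, h4, h5, h6⟩ := h1
    refine ⟨?_, ?_, ?_, hy⟩
    · rw [h3, W_of_ne h2]
    · intro h0; rw [h0] at h5; simp at h5
    · intro h0; rw [h0] at h6; simp at h6

lemma KF_spec {S c τ β : ℕ} (hc : c < 3) (hβ : β < 2 ^ τ) {y : ℕ} (hy : S ≤ y)
    (h : KM.testBit y = true) : (KF S c τ β).testBit y = X S c τ β y := by
  unfold KF X
  rw [Nat.testBit_or, Nat.testBit_shiftLeft, Nat.testBit_shiftLeft, Nat.testBit_shiftRight]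
  split_ifs with h1
  · have h2 : decide (y ≥ S) = true := by simpa using hy
    have h3 : decide (y ≥ S + τ) = false := by simpa using h1
    rw [h2, h3]; simp
  · have h2 : decide (y ≥ S) = true := by simpa using hy
    have h3 : decide (y ≥ S + τ) = true := by simpa using h1
    have h4 : β.testBit (y - S) = false := by
      apply Nat.testBit_lt_two_pow
      exact lt_of_lt_of_le hβ (Nat.pow_le_pow_right (by norm_num) (by omega))
    have h5 : S + τ + (y - (S + τ)) = y := by omega
    rw [h2, h3, h4, h5, (GG_spec hc h).1]; simp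

def headNoRun (S τ K p : ℕ) : Bool := noRun ((mism K KM p) >>> S) (τ + p - 1) p

def headAll (S τ K : ℕ) : ℕ → Bool
  | 0 => true
  | p + 1 => headNoRun S τ K (p + 3) && headAll S τ K p

lemma headAll_spec (S τ K : ℕ) : ∀ n, headAll S τ K n = true →
    ∀ p, 3 ≤ p → p < n + 3 → headNoRun S τ K p = true := by
  intro n
  induction n with
  | zero => intro _ p h1 h2; omega
  | succ n ih =>
    intro h p h1 h2
    rw [headAll, Bool.and_eq_true] at h
    by_cases hd : p = n + 3
    · rw [hd]; exact h.1
    · exact ih h.2 p h1 (by omega)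

/-- Count of squares of period one and two starting in `[S, 748)`. -/
def hc1 (S K : ℕ) : ℕ :=
  pcF (748 - S) ((2 ^ (748 - S) - 1) ^^^ (((K ^^^ (K >>> 1)) >>> S) % 2 ^ (748 - S)))

def hc2 (S K : ℕ) : ℕ :=
  pcF (748 - S) (((2 ^ (748 - S) - 1) ^^^ (((K ^^^ (K >>> 2)) >>> S) % 2 ^ (748 - S))) &&&
    ((2 ^ (748 - S) - 1) ^^^ (((K ^^^ (K >>> 2)) >>> (S + 1)) % 2 ^ (748 - S))))

def eC (c : ℕ) : ℕ := if c = 0 then 32 else 31

def checkS (S c τ β : ℕ) : Bool :=
  Nat.ble 188 S && (Nat.ble S 561 && (Nat.ble τ 137 && (Nat.ble c 2 && (Nat.ble (β + 1) (2 ^ τ) &&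
  ((Nat.beq τ 0 || (!(Nat.beq ((S + τ - 1) % 187) 0) &&
    (!(β.testBit (τ - 1) == PR.testBit ((S + τ - 1) % 374)) &&
      headAll S τ (KF S c τ β) 254))) &&
  okLower (808 - S) (hc1 S (KF S c τ β) + hc2 S (KF S c τ β) + eC c))))))

end Pool.Agent.H172.SqHole
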