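import Pool.Agent.H172.SqHole.Auto
import Pool.Agent.H172.SqHole.Data
import Pool.Agent.H172.SqHole.Count

namespace Pool.Agent.H172.SqHole

lemma okLower_spec {m G : ℕ} (h : okLower m G = true) (a : ℕ → Bool) (b : ℕ) :
    G + 206 * b ≤ (SQ a (374 * b + m)).card := by
  unfold okLower at h
  simp only [Bool.and_eq_true, Bool.or_eq_true, Nat.ble_eq] at h
  obtain ⟨h1, h2⟩ := h
  obtain ⟨h3, h4⟩ := SQ_bound a (374 * b + m)
  generalize (SQ a (374 * b + m)).card = s at h3 h4 ⊢
  by_contra hcon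
  rcases h2 with h2 | ⟨h5, h2⟩
  · omega
  · have h5' : (m + G) % 2 = 1 := Nat.eq_of_beq_eq_true h5
    by_cases hs : s = G + 206 * b - 1
    · have := h4 (by omega)
      omega
    · omega

lemma okG_spec {n G : ℕ} (h : okG n G = true) (a : ℕ → Bool) : G ≤ (SQ a n).card := by
  unfold okG at h
  simp only [Bool.or_eq_true, Bool.and_eq_true] at h
  rcases h with h | h | ⟨h, h'⟩ | ⟨h, h'⟩ | ⟨h, h'⟩ | ⟨h, h'⟩ | ⟨h, h'⟩ | ⟨h, h'⟩
  · rw [Nat.eq_of_beq_eq_true h]; exact Nat.zero_le _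
  · have := okLower_spec h a 0
    simpa using this
  · rw [Nat.eq_of_beq_eq_true h, Nat.eq_of_beq_eq_true h']
    exact SQ_exc a 4 0 lay4 (by norm_num)
  · rw [Nat.eq_of_beq_eq_true h, Nat.eq_of_beq_eq_true h']
    exact SQ_exc a 6 1 lay6 (by norm_num)
  · rw [Nat.eq_of_beq_eq_true h, Nat.eq_of_beq_eq_true h']
    exact SQ_exc a 10 3 lay10 (by norm_num)
  · rw [Nat.eq_of_beq_eq_true h, Nat.eq_of_beq_eq_true h']
    exact SQ_exc a 39 19 lay39 (by norm_num)
  · rw [Nat.eq_of_beq_eq_true h, Nat.eq_of_beq_eq_true h']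
    exact SQ_exc a 79 41 lay79 (by norm_num)
  · rw [Nat.eq_of_beq_eq_true h, Nat.eq_of_beq_eq_true h']
    exact SQ_exc a 128 68 lay128 (by norm_num)

lemma gamma_one_le_succ {n : ℕ} (hn : 2 ≤ n) : gamma 1 n ≤ gamma 0 n + 1 := by
  by_cases hs : n ≤ 246
  · obtain ⟨B, hB⟩ := exists_small n hn hs
    unfold checkSmall at hB
    rw [Bool.and_eq_true, Nat.ble_eq] at hB
    have h1 : gamma 1 n ≤ totS n B (n / 2) :=
      gamma_one_le (by omega) (fun t => B.testBit t) _ (small_bound (by omega))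
    have h2 : totS n B (n / 2) - 1 ≤ gamma 0 n := le_gamma_zero (okG_spec hB.2)
    omega
  · obtain ⟨c, τ, β, h⟩ := exists_check (808 - (247 + (n - 247) % 374)) (by omega) (by omega)
    have hc := checkSpec_of h
    set S := 808 - (247 + (n - 247) % 374) with hS
    have hn' : n = 374 * ((n - 247) / 374) + (808 - S) := by omega
    have h1 := gamma_one_le (by omega) (fun t => X S c τ β (S + t)) _
      (family_bound hc ((n - 247) / 374) n hn')
    have h2 : hc1 S (KF S c τ β) + hc2 S (KF S c τ β) + eC c + 206 * ((n - 247) / 374) ≤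
        gamma 0 n := by
      apply le_gamma_zero
      intro a
      have := okLower_spec hc.hlow a ((n - 247) / 374)
      rwa [← hn'] at this
    omega

theorem gamma_one_eq {n : ℕ} (hn : 2 ≤ n) : gamma 1 n = gamma 0 n + 1 :=
  le_antisymm (gamma_one_le_succ hn) (gamma_one_ge hn)

end Pool.Agent.H172.SqHole
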