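import Pool.Agent.H172.SqHole.Family

namespace Pool.Agent.H172.SqHole

structure CheckSpec (S c τ β : ℕ) : Prop where
  hS1 : 188 ≤ S
  hS2 : S ≤ 561
  hτ : τ ≤ 137
  hc : c < 3
  hβ : β < 2 ^ τ
  hz : τ ≠ 0 → (S + τ - 1) % 187 ≠ 0 ∧ β.testBit (τ - 1) ≠ PR.testBit ((S + τ - 1) % 374) ∧
    headAll S τ (KF S c τ β) 254 = true
  hlow : okLower (808 - S) (hc1 S (KF S c τ β) + hc2 S (KF S c τ β) + eC c) = true

lemma checkSpec_of {S c τ β : ℕ} (h : checkS S c τ β = true) : CheckSpec S c τ β := by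
  unfold checkS at h
  simp only [Bool.and_eq_true, Nat.ble_eq] at h
  obtain ⟨h1, h2, h3, h4, h5, h6, h7⟩ := h
  refine ⟨h1, h2, h3, by omega, by omega, ?_, h7⟩
  intro h0
  rw [Bool.or_eq_true] at h6
  rcases h6 with h6 | h6
  · exact absurd (Nat.eq_of_beq_eq_true h6) h0
  · simp only [Bool.and_eq_true, Bool.not_eq_true'] at h6
    obtain ⟨a1, a2, a3⟩ := h6
    refine ⟨?_, ?_, a3⟩
    · intro h8; rw [h8] at a1; simp at a1
    · intro h8; rw [h8] at a2; simp at a2

lemma X_of_ge {S c τ β x : ℕ} (h : S + τ ≤ x) : X S c τ β x = W c x := by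
  unfold X; rw [if_neg (by omega)]

lemma X_of_lt {S c τ β x : ℕ} (h : x < S + τ) : X S c τ β x = β.testBit (x - S) := by
  unfold X; rw [if_pos h]

lemma no_sq {S c τ β : ℕ} (h : CheckSpec S c τ β) (b x0 p : ℕ) (h1 : S ≤ x0) (h2 : 3 ≤ p)
    (h3 : x0 + 2 * p ≤ 808 + 374 * b)
    (hall : ∀ k < p, x0 + p + k ≠ 807 + 374 * b → X S c τ β (x0 + k) = X S c τ β (x0 + p + k)) :
    False := by
  obtain ⟨hS1, hS2, hτ, hc, hβ, hz, -⟩ := h
  by_cases hp : p % 374 = 0
  · by_cases hx : x0 < S + τ
    · obtain ⟨z1, z2, -⟩ := hz (by omega)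
      have hk := hall (S + τ - 1 - x0) (by omega) (by omega)
      have e1 : x0 + (S + τ - 1 - x0) = S + τ - 1 := by omega
      have e2 : x0 + p + (S + τ - 1 - x0) = S + τ - 1 + p := by omega
      rw [e1, e2, X_of_lt (by omega), X_of_ge (by omega), W_of_ne (by omega)] at hk
      have e3 : S + τ - 1 - S = τ - 1 := by omega
      have e4 : (S + τ - 1 + p) % 374 = (S + τ - 1) % 374 := by omega
      rw [e3, e4] at hk
      exact z2 hk
    · obtain ⟨t, ht, hne, ht0⟩ := W_mism_per c x0 p hp (by omega)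
      have hk := hall t ht (by omega)
      rw [X_of_ge (by omega), X_of_ge (by omega)] at hk
      exact hne hk
  · by_cases hx : x0 < S + τ
    · by_cases hp2 : 257 ≤ p
      · obtain ⟨t, ht, hne⟩ := W_mism c (S + τ) p hp
        have hk := hall (S + τ - x0 + t) (by omega) (by omega)
        have e1 : x0 + (S + τ - x0 + t) = S + τ + t := by omega
        have e2 : x0 + p + (S + τ - x0 + t) = S + τ + p + t := by omega
        rw [e1, e2, X_of_ge (by omega), X_of_ge (by omega)] at hk
        exact hne hk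
      · obtain ⟨-, -, z3⟩ := hz (by omega)
        have hr := headAll_spec _ _ _ _ z3 p h2 (by omega)
        obtain ⟨k, hk, hb⟩ := noRun_spec hr (by omega) (by omega) (x0 - S) (by omega)
        rw [Nat.testBit_shiftRight] at hb
        have e0 : S + (x0 - S + k) = x0 + k := by omega
        rw [e0] at hb
        obtain ⟨m1, m2, m3⟩ := mism_spec hb
        rw [KF_spec hc hβ (by omega) m2, KF_spec hc hβ (by omega) m3] at m1
        obtain ⟨-, g1, g2, g3⟩ := GG_spec hc m3
        have hkk := hall k hk (by omega)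
        have e1 : p + (x0 + k) = x0 + p + k := by omega
        rw [e1] at m1
        exact m1 hkk
    · by_cases hp2 : 120 ≤ p
      · obtain ⟨t, ht, hne⟩ := W_mism c x0 p hp
        have hk := hall t (by omega) (by omega)
        rw [X_of_ge (by omega), X_of_ge (by omega)] at hk
        exact hne hk
      · obtain ⟨t, ht, hne, ht0⟩ := W_mism_small c x0 p h2 (by omega)
        have hk := hall t (by omega) (by omega)
        rw [X_of_ge (by omega), X_of_ge (by omega)] at hk
        exact hne hk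

end Pool.Agent.H172.SqHole
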