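import Mathlib

namespace Pool.Agent.H172.SqHole

/-- `(runsF f A m).testBit x` iff the bits `x, ..., x + m - 1` of `A` are all set. -/
def runsF : ℕ → ℕ → ℕ → ℕ
  | 0, A, _ => A
  | f + 1, A, m =>
    if m ≤ 1 then A else
      if m % 2 = 1 then
        (fun R => R &&& (R >>> (m / 2))) (runsF f A (m / 2)) &&& (A >>> (m - 1))
      else (fun R => R &&& (R >>> (m / 2))) (runsF f A (m / 2))

lemma runsF_spec (f : ℕ) : ∀ (A m x : ℕ), 1 ≤ m → m < 2 ^ (f + 1) →
    ((runsF f A m).testBit x = true ↔ ∀ k < m, A.testBit (x + k) = true) := by
  induction f with
  | zero =>
    intro A m x h1 h2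
    have : m = 1 := by
      simp at h2; omega
    subst this
    simp only [runsF]
    constructor
    · intro h k hk
      have : k = 0 := by omega
      subst this; simpa using h
    · intro h; simpa using h 0 (by omega)
  | succ f ih =>
    intro A m x h1 h2
    rw [runsF]
    by_cases hm : m ≤ 1
    · have : m = 1 := by omega
      subst this
      simp only [le_refl, if_true]
      constructor
      · intro h k hk
        have : k = 0 := by omega
        subst this; simpa using h
      · intro h; simpa using h 0 (by omega)
    · rw [if_neg hm]
      have hh1 : 1 ≤ m / 2 := by omega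
      have hh2 : m / 2 < 2 ^ (f + 1) := by
        rw [pow_succ] at h2
        omega
      have key : ((fun R => R &&& (R >>> (m / 2))) (runsF f A (m / 2))).testBit x = true ↔
          ∀ k < 2 * (m / 2), A.testBit (x + k) = true := by
        simp only [Nat.testBit_and, Nat.testBit_shiftRight, Bool.and_eq_true]
        rw [ih A _ x hh1 hh2, ih A _ (m / 2 + x) hh1 hh2]
        constructor
        · rintro ⟨ha, hb⟩ k hk
          by_cases hk2 : k < m / 2
          · exact ha k hk2
          · have := hb (k - m / 2) (by omega)
            have e : m / 2 + x + (k - m / 2) = x + k := by omega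
            rwa [e] at this
        · intro h
          refine ⟨fun k hk => h k (by omega), fun k hk => ?_⟩
          have := h (m / 2 + k) (by omega)
          have e : m / 2 + x + k = x + (m / 2 + k) := by omega
          rwa [e]
      split_ifs with hodd
      · rw [Nat.testBit_and, Bool.and_eq_true, key, Nat.testBit_shiftRight]
        constructor
        · rintro ⟨ha, hb⟩ k hk
          by_cases hk2 : k < 2 * (m / 2)
          · exact ha k hk2
          · have : k = m - 1 := by omega
            subst this
            rwa [Nat.add_comm]
        · intro h
          refine ⟨fun k hk => h k (by omega), ?_⟩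
          have := h (m - 1) (by omega)
          rwa [Nat.add_comm]
      · rw [key]
        have : 2 * (m / 2) = m := by omega
        rw [this]

/-- Number of set bits among the lowest `f`. -/
def pcF : ℕ → ℕ → ℕ
  | 0, _ => 0
  | f + 1, A => A % 2 + pcF f (A / 2)

lemma pcF_eq (f : ℕ) : ∀ A, pcF f A = ((Finset.range f).filter fun i => A.testBit i = true).card := by
  induction f with
  | zero => intro A; simp [pcF]
  | succ f ih =>
    intro A
    rw [pcF, ih, Finset.card_filter, Finset.card_filter, Finset.sum_range_succ']
    rw [Nat.add_comm]
    congr 1
    · apply Finset.sum_congr rfl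
      intro i _
      rw [Nat.testBit_succ]
    · rw [Nat.testBit_zero]
      rcases Nat.mod_two_eq_zero_or_one A with h | h <;> simp [h]

end Pool.Agent.H172.SqHole
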