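import Pool.Agent.H172.SqHole.Runs

namespace Pool.Agent.H172.SqHole

/-- The period: bit `r` is the letter at residue `r` modulo `374`; residues `0`, `187` are free. -/
def PR : ℕ := 0x32c698b29a32c698b3a6b2e69cb3a6b2e68cb1a62ca68cb1a72ce9acb9a72ce98b29a32c698b29a32e69cb3a6b2e68

/-- Four copies of the period. -/
def PW4 : ℕ := 0xcb1a62ca68cb1a62ce9acb9a72ce9acb9a32c698b29a32c69cb3a6b2e69cb3a62ca68cb1a62ca68cb9a72ce9acb9a32c698b29a32c698b3a6b2e69cb3a6b2e68cb1a62ca68cb1a72ce9acb9a72ce98b29a32c698b29a32e69cb3a6b2e68cb1a62ca68cb1a62ce9acb9a72ce9acb9a32c698b29a32c69cb3a6b2e69cb3a62ca68cb1a62ca68cb9a72ce9acb9a32c698b29a32c698b3a6b2e69cb3a6b2e68cb1a62ca68cb1a72ce9acb9a72ce98b29a32c698b29a32e69cb3a6b2e68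

/-- The positions below `1496` that are not multiples of `187`. -/
def K4 : ℕ := 0xffffffffffffffffffffffffffffffffffffffffffffffdffffffffffffffffffffffffffffffffffffffffffffffbffffffffffffffffffffffffffffffffffffffffffffff7fffffffffffffffffffffffffffffffffffffffffffffeffffffffffffffffffffffffffffffffffffffffffffffdffffffffffffffffffffffffffffffffffffffffffffffbffffffffffffffffffffffffffffffffffffffffffffff7fffffffffffffffffffffffffffffffffffffffffffffe

/-- Same, without the residue `59` modulo `374`. -/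
def K5 : ℕ := 0xffffffffffffffffffffffffffffffffffffffffffffffdfffffffffffffffffffffffffffffffdffffffffffffffbffffffffffffffffffffffffffffffffffffffffffffff7fffffffffffffffffffffffffffffff7fffffffffffffeffffffffffffffffffffffffffffffffffffffffffffffdfffffffffffffffffffffffffffffffdffffffffffffffbffffffffffffffffffffffffffffffffffffffffffffff7fffffffffffffffffffffffffffffff7fffffffffffffe

/-- The known positions below `1216` for the words of the main family. -/
def KM : ℕ := 0xffffffffdffffffffffffffbffffffffffffffffffffffffffffffffffffffffffffff7fffffffffffffffffffffffffffffff7ffffffffffffffffffffffffffffffffffffffffffffffffffffffffffffffffffffffffffffffffffffffffffffffffffffffffffffffffffffffffffffffffffffffffffffffffffffffffff7fffffffffffffffffffffffffffffffffffffffffffffe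

/-- The mismatches at distance `d` between known positions. -/
def mism (P K d : ℕ) : ℕ := (P ^^^ (P >>> d)) &&& K &&& (K >>> d)

/-- Every window of length `m` inside `[0, L)` meets `M`. -/
def noRun (M L m : ℕ) : Bool := Nat.beq (runsF 8 ((2 ^ L - 1) ^^^ (M % 2 ^ L)) m) 0

lemma noRun_spec {M L m : ℕ} (h : noRun M L m = true) (h1 : 1 ≤ m) (h2 : m < 512) (r : ℕ)
    (hr : r + m ≤ L) : ∃ k < m, M.testBit (r + k) = true := by
  by_contra hcon
  push Not at hcon
  have h0 := Nat.eq_of_beq_eq_true h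
  have hs := (runsF_spec 8 ((2 ^ L - 1) ^^^ (M % 2 ^ L)) m r h1 (by simpa using h2)).mpr (by
    intro k hk
    have hk' := hcon k hk
    rw [Nat.testBit_xor, Nat.testBit_two_pow_sub_one, Nat.testBit_mod_two_pow]
    have : r + k < L := by omega
    simp [this, hk'])
  rw [h0] at hs
  simp at hs

lemma mism_spec {P K d y : ℕ} (h : (mism P K d).testBit y = true) :
    P.testBit y ≠ P.testBit (d + y) ∧ K.testBit y = true ∧ K.testBit (d + y) = true := by
  unfold mism at h
  rw [Nat.testBit_and, Nat.testBit_and, Nat.testBit_xor, Nat.testBit_shiftRight,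
    Nat.testBit_shiftRight] at h
  simp only [Bool.and_eq_true] at h
  obtain ⟨⟨h1, h2⟩, h3⟩ := h
  refine ⟨?_, h2, h3⟩
  intro he
  rw [he] at h1
  simp at h1

def w1a (d : ℕ) : Bool := noRun (mism PW4 K4 d) 492 119

def w1aAll : ℕ → Bool
  | 0 => true
  | d + 1 => w1a (d + 1) && w1aAll d

theorem w1aAll_true : w1aAll 373 = true := by decide +kernel

def w1b (d : ℕ) : Bool := Nat.ble d 2 || noRun (mism PW4 K5 d) (373 + d) d

def w1bAll : ℕ → Bool
  | 0 => true
  | d + 1 => w1b (d + 1) && w1bAll d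

theorem w1bAll_true : w1bAll 119 = true := by decide +kernel

lemma w1aAll_spec : ∀ n, w1aAll n = true → ∀ d, 1 ≤ d → d ≤ n → w1a d = true := by
  intro n
  induction n with
  | zero => intro _ d h1 h2; omega
  | succ n ih =>
    intro h d h1 h2
    rw [w1aAll, Bool.and_eq_true] at h
    by_cases hd : d = n + 1
    · rw [hd]; exact h.1
    · exact ih h.2 d h1 (by omega)

lemma w1bAll_spec : ∀ n, w1bAll n = true → ∀ d, 1 ≤ d → d ≤ n → w1b d = true := by
  intro n
  induction n with
  | zero => intro _ d h1 h2; omega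
  | succ n ih =>
    intro h d h1 h2
    rw [w1bAll, Bool.and_eq_true] at h
    by_cases hd : d = n + 1
    · rw [hd]; exact h.1
    · exact ih h.2 d h1 (by omega)

/-- Consistency of the constants. -/
def cst (y : ℕ) : Bool :=
  (!(K4.testBit y) || ((PW4.testBit y == PR.testBit (y % 374)) && !(Nat.beq (y % 187) 0))) &&
  (!(K5.testBit y) || (K4.testBit y && !(Nat.beq (y % 374) 59)))

def cstAll : ℕ → Bool
  | 0 => true
  | y + 1 => cst y && cstAll y

theorem cstAll_true : cstAll 1496 = true := by decide +kernel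
theorem K4_lt : K4 < 2 ^ 1496 := by decide +kernel
theorem K5_lt : K5 < 2 ^ 1496 := by decide +kernel

lemma cstAll_spec : ∀ n, cstAll n = true → ∀ y < n, cst y = true := by
  intro n
  induction n with
  | zero => intro _ y h2; omega
  | succ n ih =>
    intro h d h2
    rw [cstAll, Bool.and_eq_true] at h
    by_cases hd : d = n
    · rw [hd]; exact h.1
    · exact ih h.2 d (by omega)

lemma lt_of_testBit {K n y : ℕ} (hK : K < 2 ^ n) (h : K.testBit y = true) : y < n := by
  by_contra hy
  have h1 : K < 2 ^ y := lt_of_lt_of_le hK (Nat.pow_le_pow_right (by norm_num) (by omega))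
  rw [Nat.testBit_lt_two_pow h1] at h
  exact Bool.noConfusion h

lemma K4_spec {y : ℕ} (h : K4.testBit y = true) :
    PW4.testBit y = PR.testBit (y % 374) ∧ y % 187 ≠ 0 := by
  have hy := lt_of_testBit K4_lt h
  have hc := cstAll_spec _ cstAll_true y hy
  unfold cst at hc
  rw [h] at hc
  simp only [Bool.not_true, Bool.false_or, Bool.and_eq_true, beq_iff_eq, Bool.not_eq_true'] at hc
  refine ⟨hc.1.1, ?_⟩
  intro h0
  have := hc.1.2
  rw [h0] at this
  simp at this

lemma K5_spec {y : ℕ} (h : K5.testBit y = true) :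
    PW4.testBit y = PR.testBit (y % 374) ∧ y % 187 ≠ 0 ∧ y % 374 ≠ 59 := by
  have hy := lt_of_testBit K5_lt h
  have hc := cstAll_spec _ cstAll_true y hy
  unfold cst at hc
  rw [h] at hc
  simp only [Bool.not_true, Bool.false_or, Bool.and_eq_true, Bool.not_eq_true'] at hc
  have h4 := K4_spec hc.2.1
  refine ⟨h4.1, h4.2, ?_⟩
  intro h0
  have := hc.2.2
  rw [h0] at this
  simp at this

/-- The paperfolding word. -/
def pf (n : ℕ) : Bool := if n % 2 = 1 then pf (n / 2) else decide (n / 2 % 2 = 1)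
termination_by n
decreasing_by omega

lemma pf_even (y : ℕ) : pf (2 * y) = decide (y % 2 = 1) := by
  rw [pf, if_neg (by omega)]
  have : 2 * y / 2 = y := by omega
  rw [this]

lemma pf_odd (y : ℕ) : pf (2 * y + 1) = pf y := by
  rw [pf, if_pos (by omega)]
  have : (2 * y + 1) / 2 = y := by omega
  rw [this]

lemma pf2 : pf 2 = true := by rw [show 2 = 2 * 1 from rfl, pf_even]; rfl
lemma pf3 : pf 3 = false := by
  rw [show 3 = 2 * 1 + 1 from rfl, pf_odd, show 1 = 2 * 0 + 1 from rfl, pf_odd,
    show 0 = 2 * 0 from rfl, pf_even]; rfl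
lemma pf4 : pf 4 = false := by rw [show 4 = 2 * 2 from rfl, pf_even]; rfl
lemma pf5 : pf 5 = true := by rw [show 5 = 2 * 2 + 1 from rfl, pf_odd, pf2]
lemma pf6 : pf 6 = true := by rw [show 6 = 2 * 3 from rfl, pf_even]; rfl

/-- The paperfolding word has no square of even period. -/
lemma pf_no_sq : ∀ m, 1 ≤ m → ∀ a, ∃ x, a ≤ x ∧ x < a + 2 * m ∧ pf x ≠ pf (x + 2 * m) := by
  intro m
  induction m using Nat.strong_induction_on with
  | _ m ih =>
    intro hm a
    rcases Nat.mod_two_eq_zero_or_one m with h | h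
    · obtain ⟨x, h1, h2, h3⟩ := ih (m / 2) (by omega) (by omega) (a / 2)
      refine ⟨2 * x + 1, by omega, by omega, ?_⟩
      have e : 2 * x + 1 + 2 * m = 2 * (x + 2 * (m / 2)) + 1 := by omega
      rw [e, pf_odd, pf_odd]
      exact h3
    · obtain ⟨y, hy1, hy2⟩ : ∃ y, a ≤ 2 * y ∧ 2 * y < a + 2 * m := ⟨(a + 1) / 2, by omega, by omega⟩
      refine ⟨2 * y, hy1, hy2, ?_⟩
      have e : 2 * y + 2 * m = 2 * (y + m) := by ring
      rw [e, pf_even, pf_even]
      rcases Nat.mod_two_eq_zero_or_one y with h' | h'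
      · have : (y + m) % 2 = 1 := by omega
        rw [h', this]; simp
      · have : (y + m) % 2 = 0 := by omega
        rw [h', this]; simp

/-- The infinite word: periodic apart from the multiples of `187`, which carry paperfolding. -/
def W (c x : ℕ) : Bool := if x % 187 = 0 then pf (x / 187 + c) else PR.testBit (x % 374)

lemma W_of_ne {c x : ℕ} (h : x % 187 ≠ 0) : W c x = PR.testBit (x % 374) := by
  rw [W, if_neg h]

lemma W_mul (c i : ℕ) : W c (187 * i) = pf (i + c) := by
  rw [W, if_pos (by omega)]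
  have : 187 * i / 187 = i := by omega
  rw [this]

lemma W_mism (c x p : ℕ) (hp : p % 374 ≠ 0) : ∃ t < 119, W c (x + t) ≠ W c (x + p + t) := by
  have h1 := w1aAll_spec _ w1aAll_true (p % 374) (by omega) (by omega)
  obtain ⟨t, ht, hb⟩ := noRun_spec h1 (by norm_num) (by norm_num) (x % 374) (by omega)
  obtain ⟨hne, hk1, hk2⟩ := mism_spec hb
  obtain ⟨a1, a2⟩ := K4_spec hk1
  obtain ⟨b1, b2⟩ := K4_spec hk2
  refine ⟨t, ht, ?_⟩
  rw [W_of_ne (by omega), W_of_ne (by omega)]
  rw [a1, b1] at hne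
  have e1 : (x % 374 + t) % 374 = (x + t) % 374 := by omega
  have e2 : (p % 374 + (x % 374 + t)) % 374 = (x + p + t) % 374 := by omega
  rwa [e1, e2] at hne

lemma W_mism_small (c x p : ℕ) (hp : 3 ≤ p) (hp' : p ≤ 119) :
    ∃ t < p, W c (x + t) ≠ W c (x + p + t) ∧ (x + p + t) % 374 ≠ 59 := by
  have h1 := w1bAll_spec _ w1bAll_true p (by omega) (by omega)
  unfold w1b at h1
  rw [Bool.or_eq_true] at h1
  rcases h1 with h1 | h1
  · rw [Nat.ble_eq] at h1; omega
  obtain ⟨t, ht, hb⟩ := noRun_spec h1 (by omega) (by omega) (x % 374) (by omega)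
  obtain ⟨hne, hk1, hk2⟩ := mism_spec hb
  obtain ⟨a1, a2, _⟩ := K5_spec hk1
  obtain ⟨b1, b2, b3⟩ := K5_spec hk2
  refine ⟨t, ht, ?_, by omega⟩
  rw [W_of_ne (by omega), W_of_ne (by omega)]
  rw [a1, b1] at hne
  have e1 : (x % 374 + t) % 374 = (x + t) % 374 := by omega
  have e2 : (p + (x % 374 + t)) % 374 = (x + p + t) % 374 := by omega
  rwa [e1, e2] at hne

lemma W_mism_per (c x p : ℕ) (hp : p % 374 = 0) (hp0 : 0 < p) :
    ∃ t < p, W c (x + t) ≠ W c (x + p + t) ∧ (x + p + t) % 187 = 0 := by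
  obtain ⟨m, rfl⟩ : ∃ m, p = 374 * m := ⟨p / 374, by omega⟩
  obtain ⟨i, h1, h2, h3⟩ := pf_no_sq m (by omega) ((x + 186) / 187 + c)
  refine ⟨187 * (i - c) - x, by omega, ?_, by omega⟩
  have e1 : x + (187 * (i - c) - x) = 187 * (i - c) := by omega
  have e2 : x + 374 * m + (187 * (i - c) - x) = 187 * (i - c + 2 * m) := by omega
  rw [e1, e2, W_mul, W_mul]
  have e3 : i - c + c = i := by omega
  have e4 : i - c + 2 * m + c = i + 2 * m := by omega
  rw [e3, e4]
  exact h3

end Pool.Agent.H172.SqHole
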